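import Pool.Agent.N724.TX.Stm
import Pool.Agent.N724.TW.Asm

set_option autoImplicit false

/-!
# Splay trees and random relabellings, exponential tails: assembly
-/

namespace Pool.Agent.N724.TX

open Pool.Agent.H581R2.Splay Pool.Agent.TH49.Spl Pool.Agent.Y395.SP Pool.Agent.N724.TW

/-- the part of the working set bound given by the requests with `log₂ (t + 1) ≥ U` -/
noncomputable def Wb {n : ℕ} (U : ℝ) : List (Fin n) → List (Fin n) → ℝ
  | _, [] => 0
  | h, x :: X => (if U ≤ Real.logb 2 (wsF h x + 1) then Real.logb 2 (wsF h x + 1) else 0) +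
      Wb U (x :: h) X

/-- the loss -/
noncomputable def Ls {n : ℕ} (M : ℕ) (ω : Fin n → ℕ) (U : ℝ) : List (Fin n) → List (Fin n) → ℝ
  | _, [] => 0
  | h, x :: X => (if U ≤ Real.logb 2 (wsF h x + 1) ∧
      (zc M ω h x : ℝ) < 1 / 12 * Real.logb 2 (wsF h x + 1) then
        1 / 12 * Real.logb 2 (wsF h x + 1) else 0) + Ls M ω U (x :: h) X

theorem logb_nn {n : ℕ} (h : List (Fin n)) (x : Fin n) : 0 ≤ Real.logb 2 ((wsF h x : ℝ) + 1) :=
  Real.logb_nonneg (by norm_num) (by
    have : (0 : ℝ) ≤ wsF h x := Nat.cast_nonneg _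
    linarith)

theorem Wb_nonneg {n : ℕ} (U : ℝ) (X : List (Fin n)) : ∀ h : List (Fin n), 0 ≤ Wb U h X := by
  induction X with
  | nil => intro h; simp [Wb]
  | cons x X ih =>
    intro h
    simp only [Wb]
    have h1 := ih (x :: h)
    have h2 := logb_nn h x
    split_ifs <;> linarith

theorem Ls_nonneg {n : ℕ} (M : ℕ) (ω : Fin n → ℕ) (U : ℝ) (X : List (Fin n)) :
    ∀ h : List (Fin n), 0 ≤ Ls M ω U h X := by
  induction X with
  | nil => intro h; simp [Ls]
  | cons x X ih =>
    intro h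
    simp only [Ls]
    have h1 := ih (x :: h)
    have h2 := logb_nn h x
    split_ifs <;> linarith

theorem wsumF_le_Wb {n : ℕ} {U : ℝ} (hU0 : 0 ≤ U) (X : List (Fin n)) : ∀ h : List (Fin n),
    wsumF h X ≤ U * X.length + Wb U h X := by
  induction X with
  | nil => intro h; simp [Wb, wsumF]
  | cons x X ih =>
    intro h
    simp only [Wb, wsumF, List.length_cons]
    have h1 := ih (x :: h)
    push_cast
    split_ifs with h3
    · nlinarith [logb_nn h x]
    · push Not at h3
      nlinarith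

theorem Wb_le {n : ℕ} (M : ℕ) (ω : Fin n → ℕ) (U : ℝ) (X : List (Fin n)) : ∀ h : List (Fin n),
    1 / 12 * Wb U h X ≤ ZS M ω h X + Ls M ω U h X := by
  induction X with
  | nil => intro h; simp [Wb, ZS, Ls]
  | cons x X ih =>
    intro h
    simp only [Wb, ZS, Ls]
    have h1 := ih (x :: h)
    have h2 := logb_nn h x
    have h3 : (0 : ℝ) ≤ zc M ω h x := Nat.cast_nonneg _
    push_cast
    by_cases h4 : U ≤ Real.logb 2 ((wsF h x : ℝ) + 1)
    · by_cases h5 : (zc M ω h x : ℝ) < 1 / 12 * Real.logb 2 (wsF h x + 1)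
      · rw [if_pos h4, if_pos ⟨h4, h5⟩]
        linarith
      · rw [if_pos h4, if_neg (fun h6 => h5 h6.2)]
        push Not at h5
        linarith
    · rw [if_neg h4, if_neg (fun h6 => h4 h6.1)]
      linarith

/-- the average of the loss -/
theorem sum_Ls {n M : ℕ} {ε U : ℝ} (hU : 3 * (2 : ℝ) ^ (-(1 / 12 * U)) ≤ ε)
    (hT : ∀ (h : List (Fin n)) (x : Fin n),
      (((Finset.univ : Finset (Fin n → Fin (2 ^ M))).filter fun ω =>
        (zc M (lab ω) h x : ℝ) < 1 / 12 * Real.logb 2 (wsF h x + 1)).card : ℝ) ≤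
      3 * ((wsF h x : ℝ) + 1) ^ (-(1 / 12) : ℝ) * (2 ^ M) ^ n)
    (X : List (Fin n)) : ∀ h : List (Fin n),
    ∑ ω : Fin n → Fin (2 ^ M), Ls M (lab ω) U h X ≤ ε / 12 * Wb U h X * (2 ^ M) ^ n := by
  induction X with
  | nil => intro h; simp [Wb, Ls]
  | cons x X ih =>
    intro h
    simp only [Wb, Ls, Finset.sum_add_distrib]
    have h1 := ih (x :: h)
    have h2 := logb_nn h x
    have hN : (0 : ℝ) < (2 ^ M) ^ n := by positivity
    have key : ∑ ω : Fin n → Fin (2 ^ M), (if U ≤ Real.logb 2 ((wsF h x : ℝ) + 1) ∧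
        (zc M (lab ω) h x : ℝ) < 1 / 12 * Real.logb 2 ((wsF h x : ℝ) + 1) then
        1 / 12 * Real.logb 2 ((wsF h x : ℝ) + 1) else 0) ≤
        ε / 12 * (if U ≤ Real.logb 2 ((wsF h x : ℝ) + 1) then Real.logb 2 ((wsF h x : ℝ) + 1)
          else 0) * (2 ^ M) ^ n := by
      by_cases h4 : U ≤ Real.logb 2 ((wsF h x : ℝ) + 1)
      · simp only [h4, true_and, if_true]
        rw [← Finset.sum_filter, Finset.sum_const, nsmul_eq_mul]
        have h5 := hT h x
        have h6 : (3 : ℝ) * ((wsF h x : ℝ) + 1) ^ (-(1 / 12) : ℝ) ≤ ε := by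
          refine le_trans ?_ hU
          have h7 : ((wsF h x : ℝ) + 1) = (2 : ℝ) ^ Real.logb 2 ((wsF h x : ℝ) + 1) := by
            rw [Real.rpow_logb (by norm_num) (by norm_num) (by positivity)]
          rw [h7, ← Real.rpow_mul (by norm_num : (0 : ℝ) ≤ 2)]
          have h8 : (2 : ℝ) ^ (Real.logb 2 ((wsF h x : ℝ) + 1) * -(1 / 12)) ≤
              (2 : ℝ) ^ (-(1 / 12 * U)) := by
            refine Real.rpow_le_rpow_of_exponent_le (by norm_num) ?_
            linarith
          linarith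
        have h9 : (((Finset.univ : Finset (Fin n → Fin (2 ^ M))).filter fun ω =>
            (zc M (lab ω) h x : ℝ) < 1 / 12 * Real.logb 2 ((wsF h x : ℝ) + 1)).card : ℝ) ≤
            ε * (2 ^ M) ^ n := h5.trans (mul_le_mul_of_nonneg_right h6 hN.le)
        calc (((Finset.univ : Finset (Fin n → Fin (2 ^ M))).filter fun ω =>
            (zc M (lab ω) h x : ℝ) < 1 / 12 * Real.logb 2 ((wsF h x : ℝ) + 1)).card : ℝ) *
              (1 / 12 * Real.logb 2 ((wsF h x : ℝ) + 1)) ≤
            (ε * (2 ^ M) ^ n) * (1 / 12 * Real.logb 2 ((wsF h x : ℝ) + 1)) :=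
              mul_le_mul_of_nonneg_right h9 (by linarith)
          _ = ε / 12 * Real.logb 2 ((wsF h x : ℝ) + 1) * (2 ^ M) ^ n := by ring
      · simp only [h4, false_and, if_false]
        simp
    calc _ ≤ _ := add_le_add key h1
      _ = _ := by ring

/-- few labellings are bad -/
theorem badW {n M : ℕ} {ε U : ℝ} (hU : 3 * (2 : ℝ) ^ (-(1 / 12 * U)) ≤ ε) (hε : 0 ≤ ε)
    (hT : ∀ (h : List (Fin n)) (x : Fin n),
      (((Finset.univ : Finset (Fin n → Fin (2 ^ M))).filter fun ω =>
        (zc M (lab ω) h x : ℝ) < 1 / 12 * Real.logb 2 (wsF h x + 1)).card : ℝ) ≤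
      3 * ((wsF h x : ℝ) + 1) ^ (-(1 / 12) : ℝ) * (2 ^ M) ^ n)
    (X : List (Fin n)) :
    (((Finset.univ : Finset (Fin n → Fin (2 ^ M))).filter fun ω =>
      24 * (ZS M (lab ω) [] X : ℝ) < Wb U [] X).card : ℝ) ≤ 2 * ε * (2 ^ M) ^ n := by
  have h1 := sum_Ls hU hT X []
  have h2 := Wb_nonneg U X []
  rcases h2.eq_or_lt with h3 | h3
  · have h4 : ((Finset.univ : Finset (Fin n → Fin (2 ^ M))).filter fun ω =>
        24 * (ZS M (lab ω) [] X : ℝ) < Wb U [] X) = ∅ := by
      rw [Finset.filter_eq_empty_iff]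
      intro ω _
      rw [← h3, not_lt]
      positivity
    rw [h4, Finset.card_empty]
    push_cast
    positivity
  · have h5 : (((Finset.univ : Finset (Fin n → Fin (2 ^ M))).filter fun ω =>
        24 * (ZS M (lab ω) [] X : ℝ) < Wb U [] X).card : ℝ) * (1 / 24 * Wb U [] X) ≤
        ∑ ω : Fin n → Fin (2 ^ M), Ls M (lab ω) U [] X := by
      rw [← nsmul_eq_mul, ← Finset.sum_const, Finset.sum_filter]
      refine Finset.sum_le_sum fun ω _ => ?_
      have h6 := Wb_le M (lab ω) U X []
      have h7 : (0 : ℝ) ≤ Ls M (lab ω) U [] X := Ls_nonneg M (lab ω) U X []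
      split_ifs with h8
      · linarith
      · exact h7
    have h9 := h5.trans h1
    have h10 : (((Finset.univ : Finset (Fin n → Fin (2 ^ M))).filter fun ω =>
        24 * (ZS M (lab ω) [] X : ℝ) < Wb U [] X).card : ℝ) * (1 / 24 * Wb U [] X) ≤
        (2 * ε * (2 ^ M) ^ n) * (1 / 24 * Wb U [] X) := by
      calc _ ≤ _ := h9
        _ = _ := by ring
    exact le_of_mul_le_mul_right h10 (by linarith)

/-- the working set bound -/
theorem cost_ws (hI : S_INV) {n : ℕ} {T : Tr} (hT : keys T = List.range n)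
    (X : List (Fin n)) (ρ : Equiv.Perm (Fin n)) :
    (costSplay T (rel ρ X) : ℝ) ≤ 8 * X.length + 6 * wsumF [] X + 8 * (n * Real.logb 2 n) := by
  rcases X with _ | ⟨x0, X0⟩
  · have h0 : costSplay T (rel ρ []) = 0 := by simp [rel, costSplay]
    rw [h0]
    have : 0 ≤ Real.logb 2 n := by
      rcases Nat.eq_zero_or_pos n with rfl | hn
      · simp
      · exact Real.logb_nonneg (by norm_num) (by exact_mod_cast hn)
    simp only [List.length_nil, wsumF]
    push_cast
    positivity
  · have hn : T ≠ Tr.nil := by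
      rintro rfl
      have h1 : (keys Tr.nil).length = (List.range n).length := by rw [hT]
      simp only [keys, List.length_nil, List.length_range] at h1
      exact absurd x0.2 (by omega)
    have h1 := ws_holds T (rel ρ (x0 :: X0)) (bst_range hT) hn (fun x hx => by
      rw [hT, List.mem_range]; exact rel_mem ρ _ x hx)
    rw [hI n ρ (x0 :: X0), hT, List.length_range] at h1
    have h3 : (rel ρ (x0 :: X0)).length = (x0 :: X0).length := by simp [rel]
    rw [h3] at h1
    exact h1

open Classical in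
/-- few permutations are bad -/
theorem badP (hTl : S_TAIL) (hC : S_CNTW) (hV : S_VALR) (hF : S_FIB) (hJ : S_INJ) {n : ℕ} {ε U : ℝ}
    (hU : 3 * (2 : ℝ) ^ (-(1 / 12 * U)) ≤ ε) (hU0 : 0 ≤ U) (hε : 0 ≤ ε)
    {T : Tr} (hT : keys T = List.range n) (X : List (Fin n)) :
    (((Finset.univ : Finset (Equiv.Perm (Fin n))).filter fun σ =>
      ¬ wsumF [] X ≤ (U + 48) * (optAny (List.range n) (rel σ X) : ℝ)).card : ℝ) ≤
      4 * ε * n.factorial := by
  obtain ⟨M₀, hM₀⟩ := hTl n
  obtain ⟨M, hM1, hM2⟩ : ∃ M : ℕ, M₀ ≤ M ∧ n ^ 2 ≤ 2 ^ M := by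
    refine ⟨max M₀ (n ^ 2), le_max_left _ _, ?_⟩
    exact (Nat.lt_two_pow_self).le.trans (Nat.pow_le_pow_right (by norm_num) (le_max_right _ _))
  have h1 := badW hU hε (hM₀ M hM1) X
  have h2 := hJ n M hM2
  set B := (Finset.univ : Finset (Equiv.Perm (Fin n))).filter fun σ =>
      ¬ wsumF [] X ≤ (U + 48) * (optAny (List.range n) (rel σ X) : ℝ) with hB
  have h3 := hF n M B
  set I := (Finset.univ : Finset (Fin n → Fin (2 ^ M))).filter fun ω => Function.Injective ω with hI
  have h4 : ((Finset.univ : Finset (Fin n → Fin (2 ^ M))).filter fun ω =>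
      Function.Injective ω ∧ ∃ σ ∈ B, ∀ x, (σ x : ℕ) = rk (lab ω) (lab ω x)) ⊆
      ((Finset.univ : Finset (Fin n → Fin (2 ^ M))).filter fun ω =>
        24 * (ZS M (lab ω) [] X : ℝ) < Wb U [] X) := by
    intro ω hω
    rw [Finset.mem_filter] at hω ⊢
    obtain ⟨-, g1, σ, g2, g3⟩ := hω
    refine ⟨Finset.mem_univ _, ?_⟩
    by_contra g4
    push Not at g4
    rw [hB, Finset.mem_filter] at g2
    apply g2.2
    have g5 : wsumF [] X ≤ U * X.length + Wb U [] X := wsumF_le_Wb hU0 X []
    have g6 : (X.length : ℝ) ≤ optAny (List.range n) (rel σ X) := opt_len hT σ X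
    have g7 : ((ZS M (lab ω) [] X : ℝ)) / 2 ≤ (optAny (List.range n) (rel σ X) : ℝ) := by
      refine optAny_ge hT fun T' c hT' hE => ?_
      have e1 := hV n M (lab ω) σ (fun a b hab => g1 (Fin.ext hab)) (fun y => (ω y).2) g3 T' X c
        hT' hE
      have e2 := (hC n M (lab ω) (fun y => (ω y).2) X).trans e1
      have e3 : ((ZS M (lab ω) [] X : ℕ) : ℝ) ≤ ((2 * c : ℕ) : ℝ) := by exact_mod_cast e2
      push_cast at e3
      linarith
    have g8 : U * X.length ≤ U * optAny (List.range n) (rel σ X) :=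
      mul_le_mul_of_nonneg_left g6 hU0
    linarith
  have h5 : (B.card : ℝ) * I.card ≤ n.factorial * (2 * ε * (2 ^ M) ^ n) := by
    have e1 : (B.card : ℝ) * I.card = n.factorial *
        ((Finset.univ : Finset (Fin n → Fin (2 ^ M))).filter fun ω =>
          Function.Injective ω ∧ ∃ σ ∈ B, ∀ x, (σ x : ℕ) = rk (lab ω) (lab ω x)).card := by
      exact_mod_cast h3
    rw [e1]
    refine mul_le_mul_of_nonneg_left ?_ (Nat.cast_nonneg _)
    refine le_trans ?_ h1
    have e2 := Finset.card_le_card h4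
    refine (Nat.cast_le.2 e2).trans (le_of_eq ?_)
    congr 2
  have h6 : ((2 : ℝ) ^ M) ^ n ≤ 2 * I.card := by exact_mod_cast h2
  have h7 : (0 : ℝ) < I.card := by
    have : (0 : ℝ) < ((2 : ℝ) ^ M) ^ n := by positivity
    linarith
  have h8 : (B.card : ℝ) * I.card ≤ (4 * ε * n.factorial) * I.card := by
    refine h5.trans ?_
    have e1 : (0 : ℝ) ≤ n.factorial * (2 * ε) := by positivity
    calc (n.factorial : ℝ) * (2 * ε * (2 ^ M) ^ n) = n.factorial * (2 * ε) * (2 ^ M) ^ n := by ring
      _ ≤ n.factorial * (2 * ε) * (2 * I.card) := mul_le_mul_of_nonneg_left h6 e1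
      _ = _ := by ring
  exact le_of_mul_le_mul_right h8 h7

theorem logb12 : Real.logb 2 12 ≤ 147 / 41 := by
  have h1 : Real.logb 2 ((12 : ℝ) ^ 41) = 41 * Real.logb 2 12 := by
    rw [Real.logb_pow]
    norm_num
  have h2 : Real.logb 2 ((12 : ℝ) ^ 41) ≤ Real.logb 2 ((2 : ℝ) ^ 147) :=
    Real.logb_le_logb_of_le (by norm_num) (by norm_num) (by norm_num)
  have h3 : Real.logb 2 ((2 : ℝ) ^ 147) = 147 := by
    rw [Real.logb_pow, Real.logb_self_eq_one (by norm_num)]
    norm_num
  rw [h1, h3] at h2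
  linarith

theorem nlogn {n : ℕ} : (n : ℝ) * Real.logb 2 n ≤ Real.logb 2 (n.factorial : ℝ) + 3 / 2 * n := by
  rcases Nat.eq_zero_or_pos n with rfl | hn
  · simp
  have hn' : (0 : ℝ) < n := by exact_mod_cast hn
  have hf : (0 : ℝ) < n.factorial := by exact_mod_cast n.factorial_pos
  have h1 := Real.pow_div_factorial_le_exp (n : ℝ) hn'.le n
  have h2 : ((n : ℝ)) ^ n ≤ Real.exp n * n.factorial := by
    rwa [div_le_iff₀ hf] at h1
  have h3 : Real.log ((n : ℝ) ^ n) ≤ Real.log (Real.exp n * n.factorial) :=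
    Real.log_le_log (by positivity) h2
  rw [Real.log_pow, Real.log_mul (by positivity) (by positivity), Real.log_exp] at h3
  have h4 := Real.log_two_gt_d9
  have h5 : (0 : ℝ) < Real.log 2 := by linarith
  unfold Real.logb
  have h6 : (n : ℝ) * (Real.log n / Real.log 2) = (n * Real.log n) / Real.log 2 := by ring
  rw [h6, div_le_iff₀ h5, add_mul, div_mul_cancel₀ _ h5.ne']
  nlinarith

/-- the first requests give `log₂ n!` -/
theorem fact_le {n : ℕ} (X : List (Fin n)) : ∀ h : List (Fin n),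
    Real.logb 2 (((h ++ X).toFinset.card).factorial : ℝ) ≤
      Real.logb 2 ((h.toFinset.card).factorial : ℝ) + wsumF h X := by
  induction X with
  | nil => intro h; simp [wsumF]
  | cons x X ih =>
    intro h
    have h1 := ih (x :: h)
    have h2 : ((x :: h) ++ X).toFinset = (h ++ x :: X).toFinset := by
      ext y
      simp only [List.cons_append, List.toFinset_cons, List.toFinset_append, Finset.mem_insert,
        Finset.mem_union]
      tauto
    rw [h2] at h1
    refine h1.trans ?_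
    simp only [wsumF]
    have h3 : Real.logb 2 (((x :: h).toFinset.card).factorial : ℝ) ≤
        Real.logb 2 ((h.toFinset.card).factorial : ℝ) + Real.logb 2 ((wsF h x : ℝ) + 1) := by
      by_cases hx : x ∈ h
      · have : (x :: h).toFinset = h.toFinset := by
          rw [List.toFinset_cons, Finset.insert_eq_of_mem (List.mem_toFinset.2 hx)]
        rw [this]
        linarith [logb_nn h x]
      · have e1 : (x :: h).toFinset.card = h.toFinset.card + 1 := by
          rw [List.toFinset_cons, Finset.card_insert_of_notMem (fun hh => hx (List.mem_toFinset.1 hh))]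
        have e2 : wsF h x = h.toFinset.card := by
          unfold wsF
          congr 2
          rw [List.takeWhile_eq_self_iff]
          intro y hy
          simp only [decide_eq_true_eq]
          rintro rfl
          exact hx hy
        rw [e1, e2, Nat.factorial_succ]
        push_cast
        rw [Real.logb_mul (by positivity) (by positivity)]
        linarith
    linarith

theorem nlogn_le {n : ℕ} {X : List (Fin n)} (hX : ∀ x : Fin n, x ∈ X) :
    (n : ℝ) * Real.logb 2 n ≤ wsumF [] X + 3 / 2 * X.length := by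
  have h1 := fact_le X []
  have h2 : X.toFinset = Finset.univ := by
    ext x
    simp [hX x]
  rw [List.nil_append, h2, Finset.card_univ, Fintype.card_fin] at h1
  simp only [List.toFinset_nil, Finset.card_empty, Nat.factorial_zero, Nat.cast_one,
    Real.logb_one, zero_add] at h1
  have h3 := nlogn (n := n)
  have h4 : n ≤ X.length := by
    have := List.toFinset_card_le X
    rw [h2, Finset.card_univ, Fintype.card_fin] at this
    exact this
  have h5 : (n : ℝ) ≤ X.length := by exact_mod_cast h4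
  linarith

/-- the main theorem -/
theorem main (hTl : S_TAIL) (hC : S_CNTW) (hV : S_VALR) (hF : S_FIB) (hJ : S_INJ) (hI : S_INV)
    {n : ℕ} (X : List (Fin n)) {δ : ℝ} (h0 : 0 < δ) (h1 : δ ≤ 1) :
    ∃ B : Finset (Equiv.Perm (Fin n)), (B.card : ℝ) ≤ δ * n.factorial ∧
      ∀ σ : Equiv.Perm (Fin n), σ ∉ B → ∀ (ρ : Equiv.Perm (Fin n)) (T : Tr),
        keys T = List.range n → (costSplay T (rel ρ X) : ℝ) ≤
          (555 + 72 * Real.logb 2 (1 / δ)) * optAny (List.range n) (rel σ X) +
            8 * (n * Real.logb 2 n) ∧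
          ((∀ x : Fin n, x ∈ X) → (costSplay T (rel ρ X) : ℝ) ≤
            (1295 + 168 * Real.logb 2 (1 / δ)) * optAny (List.range n) (rel σ X)) := by
  classical
  by_cases hex : ∃ T : Tr, keys T = List.range n
  · obtain ⟨T, hT⟩ := hex
    set U : ℝ := 12 * Real.logb 2 (12 / δ) with hUd
    have hU0 : 0 ≤ U := by
      have : 0 ≤ Real.logb 2 (12 / δ) := Real.logb_nonneg (by norm_num) (by
        rw [le_div_iff₀ h0]; linarith)
      positivity
    have hU : 3 * (2 : ℝ) ^ (-(1 / 12 * U)) ≤ δ / 4 := by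
      have e1 : -(1 / 12 * U) = -Real.logb 2 (12 / δ) := by rw [hUd]; ring
      rw [e1, Real.rpow_neg (by norm_num), Real.rpow_logb (by norm_num) (by norm_num)
        (by positivity)]
      have : 3 * (12 / δ)⁻¹ = δ / 4 := by
        rw [inv_div]; ring
      exact this.le
    refine ⟨(Finset.univ : Finset (Equiv.Perm (Fin n))).filter fun σ =>
      ¬ wsumF [] X ≤ (U + 48) * (optAny (List.range n) (rel σ X) : ℝ), ?_, ?_⟩
    · have h2 := badP hTl hC hV hF hJ hU hU0 (by positivity) hT X
      calc _ ≤ _ := h2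
        _ = _ := by ring
    · intro σ hσ ρ T' hT'
      rw [Finset.mem_filter, not_and, not_not] at hσ
      have h2 := hσ (Finset.mem_univ _)
      have h3 := cost_ws hI hT' X ρ
      have h4 : (X.length : ℝ) ≤ optAny (List.range n) (rel σ X) := opt_len hT σ X
      have h5 : U ≤ 12 * (147 / 41) + 12 * Real.logb 2 (1 / δ) := by
        have e1 : (12 : ℝ) / δ = 12 * (1 / δ) := by ring
        rw [hUd, e1, Real.logb_mul (by norm_num) (by positivity)]
        have := logb12
        linarith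
      have h6 : (0 : ℝ) ≤ optAny (List.range n) (rel σ X) := Nat.cast_nonneg _
      have h7 : (8 + 6 * (U + 48)) * (optAny (List.range n) (rel σ X) : ℝ) ≤
          (555 + 72 * Real.logb 2 (1 / δ)) * optAny (List.range n) (rel σ X) := by
        refine mul_le_mul_of_nonneg_right ?_ h6
        linarith
      refine ⟨by linarith, fun hX => ?_⟩
      have h8 := nlogn_le hX
      have h9 : (20 + 14 * (U + 48)) * (optAny (List.range n) (rel σ X) : ℝ) ≤
          (1295 + 168 * Real.logb 2 (1 / δ)) * optAny (List.range n) (rel σ X) := by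
        refine mul_le_mul_of_nonneg_right ?_ h6
        linarith
      linarith
  · refine ⟨∅, by simp; positivity, fun σ _ ρ T hT => absurd ⟨T, hT⟩ hex⟩

/-- from tails to the average -/
theorem avg {α : Type*} [Fintype α] [DecidableEq α] {N : ℝ} (R : α → ℝ) {a b : ℝ} (hb : 0 ≤ b)
    (hN : (Fintype.card α : ℝ) = N) (B : ℕ → Finset α)
    (h1 : ∀ k : ℕ, ((B k).card : ℝ) ≤ (1 / 2) ^ k * N)
    (h2 : ∀ (k : ℕ) (σ : α), σ ∉ B k → R σ ≤ a + b * k) :
    ∑ σ, R σ ≤ (a + 2 * b) * N := by
  obtain ⟨K, hK⟩ : ∃ K : ℕ, B K = ∅ := by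
    obtain ⟨K, hK⟩ := exists_nat_gt N
    refine ⟨K, ?_⟩
    rw [← Finset.card_eq_zero]
    have e1 := h1 K
    have e2 : (1 / 2 : ℝ) ^ K * N < 1 := by
      have e3 : (K : ℝ) < 2 ^ K := by exact_mod_cast Nat.lt_two_pow_self
      have e4 : N < 2 ^ K := hK.trans e3
      have e5 : (1 / 2 : ℝ) ^ K * 2 ^ K = 1 := by
        rw [← mul_pow]; norm_num
      calc (1 / 2 : ℝ) ^ K * N < (1 / 2 : ℝ) ^ K * 2 ^ K :=
            mul_lt_mul_of_pos_left e4 (by positivity)
        _ = 1 := e5
    have e6 : (((B K).card : ℕ) : ℝ) < 1 := e1.trans_lt e2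
    have e7 : (B K).card < 1 := by exact_mod_cast e6
    omega
  have h3 : ∀ σ, R σ ≤ a + b * ∑ k ∈ Finset.range K, (if σ ∈ B k then (1 : ℝ) else 0) := by
    intro σ
    have hex : ∃ k, σ ∉ B k := ⟨K, by rw [hK]; simp⟩
    have e1 := h2 _ σ (Nat.find_spec hex)
    have e2 : Nat.find hex ≤ K := Nat.find_min' hex (by rw [hK]; simp)
    have e3 : ((Nat.find hex : ℕ) : ℝ) ≤ ∑ k ∈ Finset.range K, (if σ ∈ B k then (1 : ℝ) else 0) := by
      have e4 : ((Nat.find hex : ℕ) : ℝ) =
          ∑ k ∈ Finset.range (Nat.find hex), (if σ ∈ B k then (1 : ℝ) else 0) := by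
        rw [Finset.sum_congr rfl (g := fun _ => (1 : ℝ))]
        · simp
        · intro k hk
          have := Nat.find_min hex (Finset.mem_range.1 hk)
          rw [not_not] at this
          rw [if_pos this]
      rw [e4]
      refine Finset.sum_le_sum_of_subset_of_nonneg (Finset.range_subset_range.2 e2) ?_
      intro k _ _
      split_ifs <;> norm_num
    nlinarith
  have hN0 : 0 ≤ N := by rw [← hN]; positivity
  calc ∑ σ, R σ ≤ ∑ σ, (a + b * ∑ k ∈ Finset.range K, (if σ ∈ B k then (1 : ℝ) else 0)) :=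
        Finset.sum_le_sum fun σ _ => h3 σ
    _ = a * N + b * ∑ k ∈ Finset.range K, ((B k).card : ℝ) := by
        rw [Finset.sum_add_distrib, ← Finset.mul_sum, Finset.sum_comm]
        simp [hN, mul_comm]
    _ ≤ a * N + b * ∑ k ∈ Finset.range K, (1 / 2) ^ k * N := by
        have := Finset.sum_le_sum (s := Finset.range K) fun k _ => h1 k
        nlinarith
    _ ≤ a * N + b * (2 * N) := by
        rw [← Finset.sum_mul]
        have e1 : ∑ k ∈ Finset.range K, (1 / 2 : ℝ) ^ k ≤ 2 := by
          have := geom_sum_eq (by norm_num : (1 / 2 : ℝ) ≠ 1) K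
          rw [this]
          have e2 : (0 : ℝ) < (1 / 2) ^ K := by positivity
          rw [div_le_iff_of_neg (by norm_num)]
          linarith
        have e2 : (∑ k ∈ Finset.range K, (1 / 2 : ℝ) ^ k) * N ≤ 2 * N :=
          mul_le_mul_of_nonneg_right e1 hN0
        nlinarith
    _ = (a + 2 * b) * N := by ring

/-- the average of the competitive ratio -/
theorem main_avg (hTl : S_TAIL) (hC : S_CNTW) (hV : S_VALR) (hF : S_FIB) (hJ : S_INJ) (hI : S_INV)
    {n : ℕ} (X : List (Fin n)) (hX : ∀ x : Fin n, x ∈ X) (τ : Equiv.Perm (Fin n) → Tr)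
    (hτ : ∀ σ, keys (τ σ) = List.range n) (π : Equiv.Perm (Fin n) → Equiv.Perm (Fin n)) :
    ∑ σ : Equiv.Perm (Fin n), (costSplay (τ σ) (rel (π σ) X) : ℝ) /
      optAny (List.range n) (rel σ X) ≤ 1631 * n.factorial := by
  have h := fun k : ℕ => main hTl hC hV hF hJ hI X (δ := (1 / 2) ^ k) (by positivity)
    (pow_le_one₀ (by norm_num) (by norm_num))
  choose B hB1 hB2 using h
  have h1 := avg (N := (n.factorial : ℝ)) (a := 1295) (b := 168)
    (fun σ : Equiv.Perm (Fin n) => (costSplay (τ σ) (rel (π σ) X) : ℝ) /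
      optAny (List.range n) (rel σ X)) (by norm_num)
    (by rw [Fintype.card_perm, Fintype.card_fin]) B hB1 (by
      intro k σ hσ
      have e1 := (hB2 k σ hσ (π σ) (τ σ) (hτ σ)).2 hX
      have e2 : Real.logb 2 (1 / (1 / 2 : ℝ) ^ k) = k := by
        rw [one_div, ← inv_pow, one_div, inv_inv, Real.logb_pow, Real.logb_self_eq_one
          (by norm_num), mul_one]
      rw [e2] at e1
      have e3 : (0 : ℝ) ≤ optAny (List.range n) (rel σ X) := Nat.cast_nonneg _
      rcases e3.eq_or_lt with e4 | e4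
      · rw [← e4, div_zero]
        positivity
      · rw [div_le_iff₀ e4]
        exact e1)
  calc _ ≤ _ := h1
    _ = _ := by norm_num

end Pool.Agent.N724.TX
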