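import Pool.Agent.N724.TW.Stm

set_option autoImplicit false

/-!
# Splay trees and random relabellings, exponential tails: definitions and statements

Project TX of helper724 (problem `MP_c42954_lc`).
-/

namespace Pool.Agent.N724.TX

open Pool.Agent.H581R2.Splay Pool.Agent.TH49.Spl Pool.Agent.Y395.SP Pool.Agent.N724.TW

/-- `ω` gives labels to the keys. The request `x` after the history `h` (the most recent request
first) is a change from left to right in the dyadic interval of length `2 ^ (e + 1)` which contains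
`ω x`: `ω x` is in the right half, and the label of the most recent request with label in this
interval is in the left half. -/
def Chg {n : ℕ} (e : ℕ) (ω : Fin n → ℕ) (h : List (Fin n)) (x : Fin n) : Prop :=
  (ω x / 2 ^ e) % 2 = 1 ∧
    ∃ y, h.find? (fun z => decide (ω z / 2 ^ (e + 1) = ω x / 2 ^ (e + 1))) = some y ∧
      (ω y / 2 ^ e) % 2 = 0

open Classical in
/-- the number of the changes in the levels below `M` -/
noncomputable def zc {n : ℕ} (M : ℕ) (ω : Fin n → ℕ) (h : List (Fin n)) (x : Fin n) : ℕ :=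
  ((Finset.range M).filter fun e => Chg e ω h x).card

/-- the total number of changes -/
noncomputable def ZS {n : ℕ} (M : ℕ) (ω : Fin n → ℕ) : List (Fin n) → List (Fin n) → ℕ
  | _, [] => 0
  | h, x :: X => zc M ω h x + ZS M ω (x :: h) X

/-- labels below `2 ^ M` as natural numbers -/
def lab {n M : ℕ} (ω : Fin n → Fin (2 ^ M)) : Fin n → ℕ := fun y => (ω y : ℕ)

/-- BIN: the average of `1 / (|S| + 1)` over the subsets `S` of a set with `k` elements -/
def S_BIN : Prop := ∀ (n : ℕ) (D : Finset (Fin n)),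
  ∑ b : Fin n → Bool, 1 / (((D.filter fun y => b y = true).card : ℝ) + 1) ≤
    2 ^ n * (2 / ((D.card : ℝ) + 1))

/-- STEP: the recursion step. `D` is the set of the keys requested since the last request of `x`,
`y` the most recent one, `b` are the first bits of the labels. -/
def S_STEP : Prop := ∀ (n : ℕ) (x y : Fin n) (D : Finset (Fin n)), x ∉ D → y ∈ D →
  ∑ b : Fin n → Bool, ((1 / 2 : ℝ) ^ (if b x = true ∧ b y = false then 1 else 0)) *
      (2 * (((D.filter fun z => b z = b x).card : ℝ) + 1) ^ (-(1 / 6) : ℝ)) ≤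
    2 ^ n * (7 / 8 * (2 * (2 / (D.card : ℝ)) ^ ((1 / 6) : ℝ)))

/-- REC: splitting off the first bits of the labels -/
def S_REC : Prop := ∀ (n M : ℕ) (h : List (Fin n)) (x : Fin n),
  ∑ ω : Fin n → Fin (2 ^ (M + 1)), (1 / 2 : ℝ) ^ zc (M + 1) (lab ω) h x =
    ∑ b : Fin n → Bool, (1 / 2 : ℝ) ^ (if b x = true ∧ (∃ y, h.head? = some y ∧ b y = false)
        then 1 else 0) *
      ∑ ω : Fin n → Fin (2 ^ M), (1 / 2 : ℝ) ^ zc M (lab ω) (h.filter fun z => b z = b x) x

/-- EXP: the exponential moment -/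
def S_EXP : Prop := ∀ (n M : ℕ) (h : List (Fin n)) (x : Fin n),
  ∑ ω : Fin n → Fin (2 ^ M), (1 / 2 : ℝ) ^ zc M (lab ω) h x ≤
    (2 * ((wsF h x : ℝ) + 1) ^ (-(1 / 6) : ℝ) + (7 / 8) ^ M) * (2 ^ M) ^ n

/-- TAIL: for all large `M` few changes are unlikely -/
def S_TAIL : Prop := ∀ n : ℕ, ∃ M₀ : ℕ, ∀ M : ℕ, M₀ ≤ M → ∀ (h : List (Fin n)) (x : Fin n),
  (((Finset.univ : Finset (Fin n → Fin (2 ^ M))).filter fun ω =>
      (zc M (lab ω) h x : ℝ) < 1 / 12 * Real.logb 2 (wsF h x + 1)).card : ℝ) ≤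
    3 * ((wsF h x : ℝ) + 1) ^ (-(1 / 12) : ℝ) * (2 ^ M) ^ n

/-- CNTW: the changes are counted by `alt` -/
def S_CNTW : Prop := ∀ (n M : ℕ) (ω : Fin n → ℕ), (∀ y, ω y < 2 ^ M) → ∀ X : List (Fin n),
  ZS M ω [] X ≤ alt M (X.map ω)

/-- the rank of the label -/
def rk {n : ℕ} (ω : Fin n → ℕ) (v : ℕ) : ℕ := (Finset.univ.filter fun y => ω y < v).card

/-- RANK: an injective labelling gives a permutation -/
def S_RANK : Prop := ∀ (n : ℕ) (ω : Fin n → ℕ), Function.Injective ω →
  ∃ σ : Equiv.Perm (Fin n), ∀ x, (σ x : ℕ) = rk ω (ω x)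

/-- VALR: the interleave bound for the scheme given by the dyadic intervals of labels -/
def S_VALR : Prop := ∀ (n M : ℕ) (ω : Fin n → ℕ) (σ : Equiv.Perm (Fin n)),
  Function.Injective ω → (∀ y, ω y < 2 ^ M) → (∀ x, (σ x : ℕ) = rk ω (ω x)) →
  ∀ (T : Tr) (X : List (Fin n)) (c : ℕ), keys T = List.range n → Exec T (rel σ X) c →
    alt M (X.map ω) ≤ 2 * c

open Classical in
/-- FIB: a uniformly random injective labelling gives a uniformly random permutation -/
def S_FIB : Prop := ∀ (n M : ℕ) (B : Finset (Equiv.Perm (Fin n))),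
  B.card * ((Finset.univ : Finset (Fin n → Fin (2 ^ M))).filter fun ω =>
      Function.Injective ω).card =
    n.factorial * ((Finset.univ : Finset (Fin n → Fin (2 ^ M))).filter fun ω =>
      Function.Injective ω ∧ ∃ σ ∈ B, ∀ x, (σ x : ℕ) = rk (lab ω) (lab ω x)).card

open Classical in
/-- INJ: at least half of the labellings are injective -/
def S_INJ : Prop := ∀ n M : ℕ, n ^ 2 ≤ 2 ^ M →
  (2 ^ M) ^ n ≤ 2 * ((Finset.univ : Finset (Fin n → Fin (2 ^ M))).filter fun ω =>
      Function.Injective ω).card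

end Pool.Agent.N724.TX
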