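import Pool.Agent.N724.TX.Stm

/-!
Project TX, subtask TX/BIN (helper249): the average of `1 / (|S| + 1)` over the subsets `S` of a set
with `k` elements.
-/

set_option autoImplicit false

namespace Pool.Agent.N724.TX

open Pool.Agent.H581R2.Splay Pool.Agent.TH49.Spl Pool.Agent.Y395.SP Pool.Agent.N724.TW

theorem holds_BIN : S_BIN := by
  intro n D
  classical
  have e1 : ∑ b : Fin n → Bool, 1 / (((D.filter fun y => b y = true).card : ℝ) + 1) =
      ∑ p ∈ D.powerset ×ˢ Dᶜ.powerset, 1 / ((p.1.card : ℝ) + 1) := by
    refine Finset.sum_nbij' (fun b => (D.filter fun y => b y = true, Dᶜ.filter fun y => b y = true))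
      (fun p y => decide (y ∈ p.1 ∪ p.2)) ?_ ?_ ?_ ?_ ?_
    · intro b _
      rw [Finset.mem_product, Finset.mem_powerset, Finset.mem_powerset]
      exact ⟨Finset.filter_subset _ _, Finset.filter_subset _ _⟩
    · intro p _
      exact Finset.mem_univ _
    · intro b _
      funext y
      by_cases hy : y ∈ D <;> by_cases hb : b y = true <;> simp [hy, hb]
    · rintro ⟨A, B⟩ h
      rw [Finset.mem_product, Finset.mem_powerset, Finset.mem_powerset] at h
      obtain ⟨hA, hB⟩ := h
      simp only at hA hB
      ext y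
      · simp only [Finset.mem_filter, decide_eq_true_eq, Finset.mem_union]
        constructor
        · rintro ⟨h1, h2 | h2⟩
          · exact h2
          · exact absurd h1 (Finset.mem_compl.1 (hB h2))
        · intro h
          exact ⟨hA h, Or.inl h⟩
      · simp only [Finset.mem_filter, decide_eq_true_eq, Finset.mem_union]
        constructor
        · rintro ⟨h1, h2 | h2⟩
          · exact absurd (hA h2) (Finset.mem_compl.1 h1)
          · exact h2
        · intro h
          exact ⟨hB h, Or.inr h⟩
    · intro b _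
      rfl
  rw [e1, Finset.sum_product]
  simp only [Finset.sum_const, Finset.card_powerset]
  rw [← Finset.smul_sum, Finset.sum_powerset_apply_card (fun m : ℕ => 1 / ((m : ℝ) + 1))]
  set k := D.card with hk
  have hkn : k ≤ n := by
    have := Finset.card_le_univ D
    simpa using this
  have e2 : ∑ m ∈ Finset.range (k + 1), k.choose m • (1 / ((m : ℝ) + 1)) =
      ((2 : ℝ) ^ (k + 1) - 1) / ((k : ℝ) + 1) := by
    have h1 : ∀ m ∈ Finset.range (k + 1), k.choose m • (1 / ((m : ℝ) + 1)) =
        (((k + 1).choose (m + 1) : ℕ) : ℝ) / ((k : ℝ) + 1) := by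
      intro m _
      have h2 : ((k : ℝ) + 1) * (k.choose m : ℝ) = ((k + 1).choose (m + 1) : ℝ) * ((m : ℝ) + 1) := by
        exact_mod_cast Nat.add_one_mul_choose_eq k m
      have hm : ((m : ℝ) + 1) ≠ 0 := by positivity
      have hk' : ((k : ℝ) + 1) ≠ 0 := by positivity
      rw [nsmul_eq_mul, mul_one_div, div_eq_div_iff hm hk']
      linarith
    rw [Finset.sum_congr rfl h1, ← Finset.sum_div]
    congr 1
    have h3 := Nat.sum_range_choose (k + 1)
    rw [Finset.sum_range_succ'] at h3
    have h4 : ((∑ m ∈ Finset.range (k + 1), (k + 1).choose (m + 1) : ℕ) : ℝ) + 1 = 2 ^ (k + 1) := by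
      exact_mod_cast h3
    push_cast at h4
    linarith
  rw [e2, Finset.card_compl, Fintype.card_fin, ← hk, nsmul_eq_mul]
  push_cast
  have h5 : (2 : ℝ) ^ n = 2 ^ (n - k) * 2 ^ k := by
    rw [← pow_add]
    congr 1
    omega
  rw [h5, mul_assoc]
  refine mul_le_mul_of_nonneg_left ?_ (by positivity)
  rw [← mul_div_assoc]
  refine div_le_div_of_nonneg_right ?_ (by positivity)
  rw [pow_succ]
  linarith

end Pool.Agent.N724.TX
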