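import Pool.Agent.N724.TX.Stm

set_option autoImplicit false

/-!
# The changes of labels are counted by `alt` (helper713; after helper42, `TW/T_CNT.lean`)
-/

namespace Pool.Agent.N724.TX

open Pool.Agent.H581R2.Splay Pool.Agent.TH49.Spl Pool.Agent.Y395.SP Pool.Agent.N724.TW

namespace CNTW

variable {n : ℕ} (ω : Fin n → ℕ)

/-- The state of the node `(l, m, r)` after the history `h` (the most recent request first). -/
def st (l m r : ℕ) : List (Fin n) → Bool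
  | [] => false
  | x :: h => if l ≤ ω x ∧ ω x < m then true
      else if m ≤ ω x ∧ ω x < r then false else st l m r h

/-- The request `x` is a change. -/
def ind (l m r : ℕ) (h : List (Fin n)) (x : Fin n) : ℕ :=
  if ¬ (l ≤ ω x ∧ ω x < m) ∧ (m ≤ ω x ∧ ω x < r) ∧ st ω l m r h = true then 1 else 0

lemma cnt_step (l m r : ℕ) (h : List (Fin n)) (x : Fin n) (Y : List ℕ) :
    cnt l m r (st ω l m r h) (ω x :: Y) =
      ind ω l m r h x + cnt l m r (st ω l m r (x :: h)) Y := by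
  unfold ind
  by_cases h1 : l ≤ ω x ∧ ω x < m
  · simp [cnt, st, h1]
  · by_cases h2 : m ≤ ω x ∧ ω x < r
    · simp [cnt, st, h1, h2]
    · simp [cnt, st, h1, h2]

lemma div_iff {q : ℕ} (hq : 0 < q) (v c : ℕ) : v / q = c ↔ c * q ≤ v ∧ v < (c + 1) * q := by
  rw [← Nat.le_div_iff_mul_le hq, ← Nat.div_lt_iff_lt_mul hq]
  omega

lemma div_two {e : ℕ} (v : ℕ) : v / 2 ^ (e + 1) = v / 2 ^ e / 2 := by
  rw [pow_succ, Nat.div_div_eq_div_mul]

lemma left_iff {e : ℕ} (v i : ℕ) : (i * (2 * 2 ^ e) ≤ v ∧ v < i * (2 * 2 ^ e) + 2 ^ e) ↔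
    v / 2 ^ (e + 1) = i ∧ v / 2 ^ e % 2 = 0 := by
  have h1 : i * (2 * 2 ^ e) = (2 * i) * 2 ^ e := by ring
  have h2 : i * (2 * 2 ^ e) + 2 ^ e = (2 * i + 1) * 2 ^ e := by ring
  rw [h2, h1, ← div_iff (by positivity), div_two]
  omega

lemma right_iff {e : ℕ} (v i : ℕ) :
    (i * (2 * 2 ^ e) + 2 ^ e ≤ v ∧ v < (i + 1) * (2 * 2 ^ e)) ↔
    v / 2 ^ (e + 1) = i ∧ v / 2 ^ e % 2 = 1 := by
  have h1 : i * (2 * 2 ^ e) + 2 ^ e = (2 * i + 1) * 2 ^ e := by ring
  have h2 : (i + 1) * (2 * 2 ^ e) = (2 * i + 1 + 1) * 2 ^ e := by ring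
  rw [h2, h1, ← div_iff (by positivity), div_two]
  omega

lemma st_of_find {e i : ℕ} {y : Fin n} (hy : ω y / 2 ^ e % 2 = 0) : ∀ h : List (Fin n),
    h.find? (fun z => decide (ω z / 2 ^ (e + 1) = i)) = some y →
    st ω (i * (2 * 2 ^ e)) (i * (2 * 2 ^ e) + 2 ^ e) ((i + 1) * (2 * 2 ^ e)) h = true := by
  intro h
  induction h with
  | nil => intro h; simp at h
  | cons z h ih =>
    intro hf
    rw [List.find?_cons] at hf
    by_cases hz : ω z / 2 ^ (e + 1) = i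
    · rw [decide_eq_true hz] at hf
      simp only [Option.some.injEq] at hf
      subst hf
      rw [st, if_pos ((left_iff _ _).2 ⟨hz, hy⟩)]
    · rw [decide_eq_false hz] at hf
      rw [st, if_neg fun h => hz ((left_iff _ _).1 h).1, if_neg fun h => hz ((right_iff _ _).1 h).1]
      exact ih hf

lemma ind_of_chg {e : ℕ} {h : List (Fin n)} {x : Fin n} (hc : Chg e ω h x) :
    ind ω (ω x / 2 ^ (e + 1) * (2 * 2 ^ e)) (ω x / 2 ^ (e + 1) * (2 * 2 ^ e) + 2 ^ e)
      ((ω x / 2 ^ (e + 1) + 1) * (2 * 2 ^ e)) h x = 1 := by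
  obtain ⟨h1, y, h2, h3⟩ := hc
  rw [ind, if_pos]
  refine ⟨fun h4 => ?_, (right_iff _ _).2 ⟨rfl, h1⟩, st_of_find ω h3 h h2⟩
  have := ((left_iff _ _).1 h4).2
  omega

/-- the sum over all nodes -/
def tot (f : ℕ → ℕ → ℕ → ℕ) (M : ℕ) : ℕ :=
  ∑ e ∈ Finset.range M, ∑ i ∈ Finset.range (2 ^ (M - 1 - e)),
    f (i * (2 * 2 ^ e)) (i * (2 * 2 ^ e) + 2 ^ e) ((i + 1) * (2 * 2 ^ e))

lemma tot_add (f g : ℕ → ℕ → ℕ → ℕ) (M : ℕ) :
    tot (fun l m r => f l m r + g l m r) M = tot f M + tot g M := by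
  simp only [tot, Finset.sum_add_distrib]

lemma bound {M e v : ℕ} (he : e < M) (hv : v < 2 ^ M) : v / 2 ^ (e + 1) < 2 ^ (M - 1 - e) := by
  apply Nat.div_lt_of_lt_mul
  rw [← pow_add]
  refine hv.trans_le (le_of_eq ?_)
  congr 1
  omega

open Classical in
lemma card_le {M : ℕ} (h : List (Fin n)) (x : Fin n) (hx : ω x < 2 ^ M) :
    zc M ω h x ≤ tot (fun l m r => ind ω l m r h x) M := by
  unfold zc
  rw [Finset.card_eq_sum_ones, tot]
  refine (Finset.sum_le_sum fun e he => ?_).trans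
    (Finset.sum_le_sum_of_subset (f := fun e => ∑ i ∈ Finset.range (2 ^ (M - 1 - e)),
      ind ω (i * (2 * 2 ^ e)) (i * (2 * 2 ^ e) + 2 ^ e) ((i + 1) * (2 * 2 ^ e)) h x) ?_)
  · rw [Finset.mem_filter] at he
    have heM : e < M := Finset.mem_range.1 he.1
    refine (ind_of_chg ω he.2).symm.le.trans ?_
    exact Finset.single_le_sum (f := fun i =>
      ind ω (i * (2 * 2 ^ e)) (i * (2 * 2 ^ e) + 2 ^ e) ((i + 1) * (2 * 2 ^ e)) h x)
      (fun _ _ => Nat.zero_le _) (Finset.mem_range.2 (bound heM hx))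
  · exact Finset.filter_subset _ _

lemma main {M : ℕ} (hω : ∀ y, ω y < 2 ^ M) (X : List (Fin n)) : ∀ h : List (Fin n),
    ZS M ω h X ≤ tot (fun l m r => cnt l m r (st ω l m r h) (X.map ω)) M := by
  induction X with
  | nil => intro h; simp [ZS]
  | cons x X ih =>
    intro h
    have h1 : (fun l m r => cnt l m r (st ω l m r h) ((x :: X).map ω)) = fun l m r =>
        ind ω l m r h x + cnt l m r (st ω l m r (x :: h)) (X.map ω) := by
      funext l m r
      exact cnt_step ω l m r h x (X.map ω)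
    rw [h1, tot_add, ZS]
    exact Nat.add_le_add (card_le ω h x (hω x)) (ih (x :: h))

end CNTW

/-- **The changes are counted by `alt`.** -/
theorem holds_CNTW : S_CNTW := by
  intro n M ω hω X
  exact CNTW.main ω hω X []

end Pool.Agent.N724.TX
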