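import Pool.Agent.N724.TX.Stm

set_option autoImplicit false

/-!
# TX/EXP: the exponential moment (helper616)
-/

namespace Pool.Agent.N724.TX

open Pool.Agent.H581R2.Splay Pool.Agent.TH49.Spl Pool.Agent.Y395.SP Pool.Agent.N724.TW

namespace TEXP

open Finset

lemma tw_filter {n : ℕ} (x : Fin n) (p : Fin n → Bool) (hp : p x = true) (h : List (Fin n)) :
    (h.filter p).takeWhile (fun y => decide (y ≠ x)) =
      (h.takeWhile fun y => decide (y ≠ x)).filter p := by
  induction h with
  | nil => rfl
  | cons a h ih =>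
    by_cases ha : a = x
    · subst ha
      rw [List.filter_cons_of_pos hp, List.takeWhile_cons_of_neg (by simp),
        List.takeWhile_cons_of_neg (by simp)]
      rfl
    · have ha' : (fun y => decide (y ≠ x)) a = true := by simpa using ha
      have e : ∀ l : List (Fin n), (a :: l).takeWhile (fun y => decide (y ≠ x)) =
          a :: l.takeWhile (fun y => decide (y ≠ x)) := fun l =>
        List.takeWhile_cons_of_pos (p := fun y => decide (y ≠ x)) ha'
      rw [e]
      by_cases hpa : p a = true
      · rw [List.filter_cons_of_pos hpa, List.filter_cons_of_pos hpa, e, ih]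
      · rw [List.filter_cons_of_neg hpa, List.filter_cons_of_neg hpa, ih]

lemma ws_filter {n : ℕ} (x : Fin n) (b : Fin n → Bool) (h : List (Fin n)) :
    wsF (h.filter fun z => b z = b x) x =
      (((h.takeWhile fun y => decide (y ≠ x)).toFinset).filter fun z => b z = b x).card := by
  unfold wsF
  rw [tw_filter x (fun z => decide (b z = b x)) (by simp), List.toFinset_filter]
  congr 1
  refine Finset.filter_congr fun z _ => ?_
  rw [decide_eq_true_eq]

lemma card_four {n : ℕ} (x y : Fin n) (hxy : x ≠ y) :
    ((univ : Finset (Fin n → Bool)).filter fun b => b x = true ∧ b y = false).card * 4 = 2 ^ n := by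
  classical
  have h1 : ((univ : Finset (Fin n → Bool)).filter fun b => b x = true ∧ b y = false) =
      Fintype.piFinset fun z => if z = x then {true} else if z = y then {false} else univ := by
    ext b
    rw [mem_filter, Fintype.mem_piFinset]
    constructor
    · rintro ⟨-, h1, h2⟩ z
      split_ifs with h3 h4
      · rw [h3, mem_singleton, h1]
      · rw [h4, mem_singleton, h2]
      · exact mem_univ _
    · intro h
      refine ⟨mem_univ _, ?_, ?_⟩
      · have := h x
        rwa [if_pos rfl, mem_singleton] at this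
      · have := h y
        rwa [if_neg (Ne.symm hxy), if_pos rfl, mem_singleton] at this
  rw [h1, Fintype.card_piFinset]
  have h2 : (4 : ℕ) = ∏ z : Fin n, ((if z = x then 2 else 1) * (if z = y then 2 else 1)) := by
    rw [prod_mul_distrib, prod_ite_eq', prod_ite_eq', if_pos (mem_univ _), if_pos (mem_univ _)]
    norm_num
  rw [h2, ← prod_mul_distrib]
  have h3 : (2 : ℕ) ^ n = ∏ _z : Fin n, 2 := by simp
  rw [h3]
  refine prod_congr rfl fun z _ => ?_
  by_cases hx : z = x
  · subst hx
    rw [if_pos rfl, if_pos rfl, if_neg hxy]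
    rfl
  · by_cases hy : z = y
    · subst hy
      rw [if_neg hx, if_pos rfl, if_neg hx, if_pos rfl]
      rfl
    · rw [if_neg hx, if_neg hy, if_neg hx, if_neg hy]
      simp

lemma sum_w {n : ℕ} (x y : Fin n) (hxy : x ≠ y) :
    ∑ b : Fin n → Bool, (1 / 2 : ℝ) ^ (if b x = true ∧ b y = false then 1 else 0) =
      7 / 8 * 2 ^ n := by
  have h1 : ∀ b : Fin n → Bool, (1 / 2 : ℝ) ^ (if b x = true ∧ b y = false then 1 else 0) =
      1 - 1 / 2 * (if b x = true ∧ b y = false then 1 else 0) := by
    intro b
    split_ifs <;> norm_num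
  rw [sum_congr rfl fun b _ => h1 b, sum_sub_distrib, ← mul_sum, sum_boole]
  have h2 : (((univ : Finset (Fin n → Bool)).filter fun b => b x = true ∧ b y = false).card : ℝ) * 4 =
      2 ^ n := by exact_mod_cast card_four x y hxy
  have h3 : ∑ _b : Fin n → Bool, (1 : ℝ) = 2 ^ n := by simp
  rw [h3]
  linarith

lemma final (t : ℕ) (ht : 63 ≤ t) :
    7 / 8 * (2 * (2 / (t : ℝ)) ^ ((1 / 6) : ℝ)) ≤ 2 * ((t : ℝ) + 1) ^ (-(1 / 6) : ℝ) := by
  have ht' : (63 : ℝ) ≤ t := by exact_mod_cast ht
  have h1 : (7 / 8 : ℝ) = ((7 / 8 : ℝ) ^ (6 : ℝ)) ^ ((1 / 6) : ℝ) := by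
    rw [← Real.rpow_mul (by norm_num)]
    norm_num
  have h2 : (7 / 8 : ℝ) * (2 / (t : ℝ)) ^ ((1 / 6) : ℝ) ≤ ((t : ℝ) + 1) ^ (-(1 / 6) : ℝ) := by
    rw [Real.rpow_neg (by positivity), ← Real.inv_rpow (by positivity)]
    conv_lhs => rw [h1]
    rw [← Real.mul_rpow (by positivity) (by positivity)]
    refine Real.rpow_le_rpow (by positivity) ?_ (by norm_num)
    have h3 : (7 / 8 : ℝ) ^ (6 : ℝ) = (7 / 8) ^ 6 := by
      rw [← Real.rpow_natCast]; norm_num
    rw [h3, inv_eq_one_div, ← mul_div_assoc, div_le_div_iff₀ (by linarith) (by linarith)]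
    norm_num
    linarith
  linarith

lemma triv (n M : ℕ) (h : List (Fin n)) (x : Fin n) :
    ∑ ω : Fin n → Fin (2 ^ M), (1 / 2 : ℝ) ^ zc M (lab ω) h x ≤ (2 ^ M) ^ n := by
  calc ∑ ω : Fin n → Fin (2 ^ M), (1 / 2 : ℝ) ^ zc M (lab ω) h x
      ≤ ∑ _ω : Fin n → Fin (2 ^ M), (1 : ℝ) :=
        sum_le_sum fun ω _ => pow_le_one₀ (by norm_num) (by norm_num)
    _ = (2 ^ M) ^ n := by simp

end TEXP

open TEXP Finset in
theorem holds_EXP : S_REC → S_STEP → S_EXP := by
  intro hR hS n M
  induction M with
  | zero =>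
    intro h x
    refine (triv n 0 h x).trans ?_
    have h1 : (0 : ℝ) ≤ 2 * ((wsF h x : ℝ) + 1) ^ (-(1 / 6) : ℝ) := by positivity
    rw [pow_zero, pow_zero, one_pow, mul_one]
    linarith
  | succ M ih =>
    intro h x
    by_cases ht : wsF h x ≤ 62
    · refine (triv n (M + 1) h x).trans ?_
      have h0 : (0 : ℝ) ≤ (2 ^ (M + 1)) ^ n := by positivity
      have h1 : (1 : ℝ) ≤ 2 * ((wsF h x : ℝ) + 1) ^ (-(1 / 6) : ℝ) := by
        have h2 : ((64 : ℝ)) ^ (-(1 / 6) : ℝ) ≤ ((wsF h x : ℝ) + 1) ^ (-(1 / 6) : ℝ) := by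
          refine Real.rpow_le_rpow_of_nonpos (by positivity) ?_ (by norm_num)
          have : (wsF h x : ℝ) ≤ 62 := by exact_mod_cast ht
          linarith
        have h3 : ((64 : ℝ)) ^ (-(1 / 6) : ℝ) = 1 / 2 := by
          have h4 : (64 : ℝ) = (2 : ℝ) ^ (6 : ℝ) := by
            rw [show (6 : ℝ) = ((6 : ℕ) : ℝ) by norm_num, Real.rpow_natCast]
            norm_num
          rw [h4, ← Real.rpow_mul (by norm_num)]
          norm_num
        linarith
      have h2 : (0 : ℝ) ≤ (7 / 8) ^ (M + 1) := by positivity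
      have h3 : (1 : ℝ) ≤ 2 * ((wsF h x : ℝ) + 1) ^ (-(1 / 6) : ℝ) + (7 / 8) ^ (M + 1) := by linarith
      exact le_mul_of_one_le_left h0 h3
    · rw [not_le] at ht
      set D := (h.takeWhile fun y => decide (y ≠ x)).toFinset with hD
      have hDc : wsF h x = D.card := rfl
      have hxD : x ∉ D := by
        rw [hD, List.mem_toFinset]
        intro hx
        have := List.mem_takeWhile_imp hx
        simp at this
      obtain ⟨y, hhead, hyD⟩ : ∃ y, h.head? = some y ∧ y ∈ D := by
        rcases h with _ | ⟨y, h'⟩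
        · exfalso
          simp [wsF] at ht
        · refine ⟨y, rfl, ?_⟩
          by_cases hy : y = x
          · exfalso
            subst hy
            simp [wsF] at ht
          · have hy' : (fun y => decide (y ≠ x)) y = true := by simpa using hy
            have e : (y :: h').takeWhile (fun y => decide (y ≠ x)) =
                y :: h'.takeWhile (fun y => decide (y ≠ x)) :=
              List.takeWhile_cons_of_pos (p := fun y => decide (y ≠ x)) hy'
            rw [hD, List.mem_toFinset, e]
            exact List.mem_cons_self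
      have hxy : x ≠ y := fun e => hxD (e ▸ hyD)
      have hcond : ∀ b : Fin n → Bool,
          (if b x = true ∧ (∃ y, h.head? = some y ∧ b y = false) then 1 else 0 : ℕ) =
            if b x = true ∧ b y = false then 1 else 0 := by
        intro b
        have e : (∃ y, h.head? = some y ∧ b y = false) ↔ b y = false := by
          rw [hhead]
          constructor
          · rintro ⟨z, hz, hbz⟩
            rw [Option.some.injEq] at hz
            rwa [hz]
          · intro hb
            exact ⟨y, rfl, hb⟩
        simp only [e]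
      rw [hR]
      set c : ℝ := (2 ^ M) ^ n with hc
      have hc0 : 0 ≤ c := by positivity
      set w : (Fin n → Bool) → ℝ := fun b =>
        (1 / 2 : ℝ) ^ (if b x = true ∧ b y = false then 1 else 0) with hw
      have hw0 : ∀ b, 0 ≤ w b := fun b => by positivity
      have hstep := hS n x y D hxD hyD
      have hsumw : ∑ b, w b = 7 / 8 * 2 ^ n := sum_w x y hxy
      have hfin := final D.card (by omega)
      calc _ ≤ ∑ b : Fin n → Bool, w b *
            ((2 * (((D.filter fun z => b z = b x).card : ℝ) + 1) ^ (-(1 / 6) : ℝ) +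
              (7 / 8) ^ M) * c) := by
            refine sum_le_sum fun b _ => ?_
            rw [hcond b]
            refine mul_le_mul_of_nonneg_left ?_ (hw0 b)
            have h5 := ih (h.filter fun z => b z = b x) x
            rw [ws_filter] at h5
            exact h5
        _ = (∑ b : Fin n → Bool, w b *
              (2 * (((D.filter fun z => b z = b x).card : ℝ) + 1) ^ (-(1 / 6) : ℝ))) * c +
              (∑ b, w b) * (7 / 8) ^ M * c := by
            rw [sum_mul, sum_mul, sum_mul, ← sum_add_distrib]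
            refine sum_congr rfl fun b _ => ?_
            ring
        _ ≤ (2 ^ n * (7 / 8 * (2 * (2 / (D.card : ℝ)) ^ ((1 / 6) : ℝ)))) * c +
              (7 / 8 * 2 ^ n) * (7 / 8) ^ M * c := by
            rw [hsumw]
            gcongr
        _ ≤ (2 ^ n * (2 * ((D.card : ℝ) + 1) ^ (-(1 / 6) : ℝ))) * c +
              (7 / 8 * 2 ^ n) * (7 / 8) ^ M * c := by
            gcongr
        _ = (2 * ((wsF h x : ℝ) + 1) ^ (-(1 / 6) : ℝ) + (7 / 8) ^ (M + 1)) * (2 ^ (M + 1)) ^ n := by
            rw [hDc, hc]
            have : ((2 : ℝ) ^ (M + 1)) ^ n = 2 ^ n * (2 ^ M) ^ n := by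
              rw [pow_succ, mul_pow]; ring
            rw [this, pow_succ]
            ring

end Pool.Agent.N724.TX
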