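import Pool.Agent.N724.TX.Stm

set_option autoImplicit false

/-!
# A uniformly random injective labelling gives a uniformly random permutation (helper572)
-/

namespace Pool.Agent.N724.TX

open Pool.Agent.H581R2.Splay Pool.Agent.TH49.Spl Pool.Agent.Y395.SP Pool.Agent.N724.TW

namespace FibAux

theorem rank_exists (n : ℕ) (ω : Fin n → ℕ) (hω : Function.Injective ω) :
    ∃ σ : Equiv.Perm (Fin n), ∀ x, (σ x : ℕ) = rk ω (ω x) := by
  have hlt : ∀ x, rk ω (ω x) < n := by
    intro x
    unfold rk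
    have h1 : (Finset.univ.filter fun y => ω y < ω x) ⊂ Finset.univ := by
      rw [Finset.filter_ssubset]
      exact ⟨x, Finset.mem_univ _, lt_irrefl _⟩
    have h2 := Finset.card_lt_card h1
    rwa [Finset.card_univ, Fintype.card_fin] at h2
  have hmono : ∀ x x', ω x < ω x' → rk ω (ω x) < rk ω (ω x') := by
    intro x x' h
    unfold rk
    apply Finset.card_lt_card
    refine ⟨?_, ?_⟩
    · intro y hy
      rw [Finset.mem_filter] at hy ⊢
      exact ⟨hy.1, hy.2.trans h⟩
    · intro hsub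
      have h1 := hsub (Finset.mem_filter.2 ⟨Finset.mem_univ x, h⟩)
      exact lt_irrefl _ (Finset.mem_filter.1 h1).2
  let f : Fin n → Fin n := fun x => ⟨rk ω (ω x), hlt x⟩
  have hf : Function.Injective f := by
    intro x x' h
    have h1 : rk ω (ω x) = rk ω (ω x') := congrArg Fin.val h
    rcases lt_trichotomy (ω x) (ω x') with h2 | h2 | h2
    · have := hmono x x' h2
      omega
    · exact hω h2
    · have := hmono x' x h2
      omega
  exact ⟨Equiv.ofBijective f (Finite.injective_iff_bijective.1 hf), fun x => rfl⟩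

theorem rk_comp {n : ℕ} (ω : Fin n → ℕ) (σ : Equiv.Perm (Fin n)) (v : ℕ) :
    rk (fun y => ω (σ y)) v = rk ω v := by
  unfold rk
  refine Finset.card_bij (fun y _ => σ y) ?_ ?_ ?_
  · intro y hy
    rw [Finset.mem_filter] at hy ⊢
    exact ⟨Finset.mem_univ _, hy.2⟩
  · intro a _ b _ h
    exact σ.injective h
  · intro y hy
    rw [Finset.mem_filter] at hy
    refine ⟨σ.symm y, Finset.mem_filter.2 ⟨Finset.mem_univ _, ?_⟩, σ.apply_symm_apply y⟩
    show ω (σ (σ.symm y)) < v
    rw [σ.apply_symm_apply]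
    exact hy.2

open Classical in
/-- the injective labellings with the rank permutation `σ` -/
noncomputable def FA (n M : ℕ) (σ : Equiv.Perm (Fin n)) : Finset (Fin n → Fin (2 ^ M)) :=
  Finset.univ.filter fun ω => Function.Injective ω ∧ ∀ x, (σ x : ℕ) = rk (lab ω) (lab ω x)

theorem mem_FA {n M : ℕ} {σ : Equiv.Perm (Fin n)} {ω : Fin n → Fin (2 ^ M)} :
    ω ∈ FA n M σ ↔ Function.Injective ω ∧ ∀ x, (σ x : ℕ) = rk (lab ω) (lab ω x) := by
  unfold FA
  rw [Finset.mem_filter]
  exact ⟨fun h => h.2, fun h => ⟨Finset.mem_univ _, h⟩⟩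

theorem card_FA (n M : ℕ) (σ : Equiv.Perm (Fin n)) : (FA n M σ).card = (FA n M 1).card := by
  symm
  refine Finset.card_bij (fun ω _ => ω ∘ σ) ?_ ?_ ?_
  · intro ω hω
    rw [mem_FA] at hω ⊢
    refine ⟨hω.1.comp σ.injective, fun x => ?_⟩
    have h1 := hω.2 (σ x)
    have h2 := rk_comp (lab ω) σ (lab ω (σ x))
    show (σ x : ℕ) = rk (fun y => lab ω (σ y)) (lab ω (σ x))
    rw [h2, ← h1]
    rfl
  · intro a _ b _ h
    exact σ.surjective.injective_comp_right h
  · intro ω hω
    rw [mem_FA] at hω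
    refine ⟨ω ∘ σ.symm, ?_, ?_⟩
    · rw [mem_FA]
      refine ⟨hω.1.comp σ.symm.injective, fun x => ?_⟩
      have h1 := hω.2 (σ.symm x)
      have h2 := rk_comp (lab ω) σ.symm (lab ω (σ.symm x))
      show (x : ℕ) = rk (fun y => lab ω (σ.symm y)) (lab ω (σ.symm x))
      rw [h2, ← h1, σ.apply_symm_apply]
    · funext y
      show ω (σ.symm (σ y)) = ω y
      rw [σ.symm_apply_apply]

theorem disj_FA {n M : ℕ} {σ τ : Equiv.Perm (Fin n)} (h : σ ≠ τ) :
    Disjoint (FA n M σ) (FA n M τ) := by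
  rw [Finset.disjoint_left]
  intro ω h1 h2
  rw [mem_FA] at h1 h2
  apply h
  ext x
  rw [h1.2 x, h2.2 x]

theorem card_union {n M : ℕ} (B : Finset (Equiv.Perm (Fin n))) :
    (B.biUnion (FA n M)).card = B.card * (FA n M 1).card := by
  classical
  rw [Finset.card_biUnion fun σ _ τ _ h => disj_FA h, Finset.sum_congr rfl fun σ _ => card_FA n M σ,
    Finset.sum_const, smul_eq_mul]

end FibAux

open FibAux in
/-- FIB -/
theorem holds_FIB : S_FIB := by
  classical
  intro n M B
  have h1 : ((Finset.univ : Finset (Fin n → Fin (2 ^ M))).filter fun ω =>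
      Function.Injective ω ∧ ∃ σ ∈ B, ∀ x, (σ x : ℕ) = rk (lab ω) (lab ω x)) =
      B.biUnion (FA n M) := by
    ext ω
    rw [Finset.mem_filter, Finset.mem_biUnion]
    constructor
    · rintro ⟨-, h2, σ, h3, h4⟩
      exact ⟨σ, h3, mem_FA.2 ⟨h2, h4⟩⟩
    · rintro ⟨σ, h3, h4⟩
      rw [mem_FA] at h4
      exact ⟨Finset.mem_univ _, h4.1, σ, h3, h4.2⟩
  have h2 : ((Finset.univ : Finset (Fin n → Fin (2 ^ M))).filter fun ω =>
      Function.Injective ω) = (Finset.univ : Finset (Equiv.Perm (Fin n))).biUnion (FA n M) := by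
    ext ω
    rw [Finset.mem_filter, Finset.mem_biUnion]
    constructor
    · rintro ⟨-, h3⟩
      obtain ⟨σ, hσ⟩ := rank_exists n (lab ω) (fun x y hxy => h3 (Fin.ext hxy))
      exact ⟨σ, Finset.mem_univ _, mem_FA.2 ⟨h3, hσ⟩⟩
    · rintro ⟨σ, -, h4⟩
      rw [mem_FA] at h4
      exact ⟨Finset.mem_univ _, h4.1⟩
  have e1 := card_union (M := M) B
  have e2 := card_union (M := M) (Finset.univ : Finset (Equiv.Perm (Fin n)))
  rw [← h1] at e1
  rw [← h2, Finset.card_univ, Fintype.card_perm, Fintype.card_fin] at e2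
  have e3 : B.card * (n.factorial * (FA n M 1).card) =
      n.factorial * (B.card * (FA n M 1).card) := by ring
  rw [← e1, ← e2] at e3
  convert e3 using 2

end Pool.Agent.N724.TX
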