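import Pool.Agent.N724.TX.Stm

/-!
Project TX (helper724), part INJ (helper624): at least half of the labellings are injective.
-/

set_option autoImplicit false

namespace Pool.Agent.N724.TX

open Pool.Agent.H581R2.Splay Pool.Agent.TH49.Spl Pool.Agent.Y395.SP Pool.Agent.N724.TW

theorem inj_aux (N : ℕ) (k : ℕ) :
    2 * N * N ^ k ≤ 2 * N * N.descFactorial k + N ^ k * (k * (k - 1)) := by
  induction k with
  | zero => simp
  | succ k ih =>
    have h1 : N.descFactorial (k + 1) = (N - k) * N.descFactorial k := Nat.descFactorial_succ N k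
    have h2 : N.descFactorial k ≤ N ^ k := Nat.descFactorial_le_pow N k
    have h3 : N ≤ (N - k) + k := by omega
    have h4 : N * N.descFactorial k ≤ N.descFactorial (k + 1) + k * N ^ k := by
      rw [h1]
      calc N * N.descFactorial k ≤ ((N - k) + k) * N.descFactorial k :=
            Nat.mul_le_mul_right _ h3
        _ = (N - k) * N.descFactorial k + k * N.descFactorial k := by ring
        _ ≤ _ := Nat.add_le_add_left (Nat.mul_le_mul_left _ h2) _
    have h5 : k * (k - 1) + 2 * k = (k + 1) * (k + 1 - 1) := by
      rcases k with _ | k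
      · rfl
      · simp only [Nat.add_sub_cancel]
        ring
    calc 2 * N * N ^ (k + 1) = N * (2 * N * N ^ k) := by ring
      _ ≤ N * (2 * N * N.descFactorial k + N ^ k * (k * (k - 1))) := Nat.mul_le_mul_left _ ih
      _ = 2 * N * (N * N.descFactorial k) + N ^ (k + 1) * (k * (k - 1)) := by ring
      _ ≤ 2 * N * (N.descFactorial (k + 1) + k * N ^ k) + N ^ (k + 1) * (k * (k - 1)) :=
          Nat.add_le_add_right (Nat.mul_le_mul_left _ h4) _
      _ = 2 * N * N.descFactorial (k + 1) + N ^ (k + 1) * (k * (k - 1) + 2 * k) := by ring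
      _ = _ := by rw [h5]

theorem holds_INJ : S_INJ := by
  classical
  intro n M h
  have hc : ((Finset.univ : Finset (Fin n → Fin (2 ^ M))).filter fun ω =>
      Function.Injective ω).card = (2 ^ M).descFactorial n := by
    rw [← Fintype.card_subtype, Fintype.card_congr (Equiv.subtypeInjectiveEquivEmbedding _ _),
      Fintype.card_embedding_eq, Fintype.card_fin, Fintype.card_fin]
  have hc' : ((Finset.univ : Finset (Fin n → Fin (2 ^ M))).filter fun ω =>
      Function.Injective ω).card = (2 ^ M).descFactorial n := by
    convert hc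
  have h1 := inj_aux (2 ^ M) n
  generalize hN : 2 ^ M = N at *
  have hNpos : 0 < N := by rw [← hN]; positivity
  have h2 : n * (n - 1) ≤ N := by
    refine le_trans ?_ h
    rw [sq]
    exact Nat.mul_le_mul_left _ (Nat.sub_le _ _)
  have h3 : N * N ^ n ≤ N * (2 * N.descFactorial n) := by
    have h4 : N ^ n * (n * (n - 1)) ≤ N ^ n * N := Nat.mul_le_mul_left _ h2
    nlinarith
  have h5 := Nat.le_of_mul_le_mul_left h3 hNpos
  refine h5.trans (le_of_eq ?_)
  congr 1
  exact hc'.symm

end Pool.Agent.N724.TX
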