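import Pool.Agent.N724.TX.Stm

/-!
# Project TX, task RANK (helper814): an injective labelling gives a permutation
-/

set_option autoImplicit false

namespace Pool.Agent.N724.TX

open Pool.Agent.H581R2.Splay Pool.Agent.TH49.Spl Pool.Agent.Y395.SP Pool.Agent.N724.TW

theorem rk_lt_of_lt {n : ℕ} (ω : Fin n → ℕ) (x : Fin n) {v : ℕ} (h : ω x < v) :
    rk ω (ω x) < rk ω v := by
  unfold rk
  refine Finset.card_lt_card ⟨fun y hy => ?_, fun h2 => ?_⟩
  · rw [Finset.mem_filter] at hy ⊢
    exact ⟨hy.1, hy.2.trans h⟩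
  · have h3 := h2 (Finset.mem_filter.2 ⟨Finset.mem_univ x, h⟩)
    exact lt_irrefl _ (Finset.mem_filter.1 h3).2

theorem rk_lt {n : ℕ} (ω : Fin n → ℕ) (x : Fin n) : rk ω (ω x) < n := by
  refine (rk_lt_of_lt ω x (Nat.lt_succ_self _)).trans_le ?_
  unfold rk
  exact (Finset.card_le_univ _).trans (by simp)

theorem holds_RANK : S_RANK := by
  intro n ω hω
  have hinj : Function.Injective (fun x : Fin n => (⟨rk ω (ω x), rk_lt ω x⟩ : Fin n)) := by
    intro x y hxy
    have h : rk ω (ω x) = rk ω (ω y) := congrArg Fin.val hxy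
    rcases lt_trichotomy (ω x) (ω y) with h1 | h1 | h1
    · exact absurd h (rk_lt_of_lt ω x h1).ne
    · exact hω h1
    · exact absurd h (rk_lt_of_lt ω y h1).ne'
  exact ⟨Equiv.ofBijective _ (Finite.injective_iff_bijective.1 hinj), fun x => rfl⟩

end Pool.Agent.N724.TX
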