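import Pool.Agent.N724.TX.Stm

/-! TX/REC (helper134 for helper724). -/

set_option autoImplicit false

namespace Pool.Agent.N724.TX

open Pool.Agent.H581R2.Splay Pool.Agent.TH49.Spl Pool.Agent.Y395.SP Pool.Agent.N724.TW

/-- a first bit and a label below `2 ^ M` -/
def joinVal (M : ℕ) (b : Bool) (v : ℕ) : ℕ := (if b = true then 2 ^ M else 0) + v

theorem joinVal_lt {M : ℕ} (b : Bool) {v : ℕ} (hv : v < 2 ^ M) : joinVal M b v < 2 ^ (M + 1) := by
  unfold joinVal
  rw [pow_succ]
  split_ifs <;> omega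

def cEq (M : ℕ) : Bool × Fin (2 ^ M) ≃ Fin (2 ^ (M + 1)) where
  toFun p := ⟨joinVal M p.1 p.2, joinVal_lt p.1 p.2.2⟩
  invFun v := (decide (2 ^ M ≤ (v : ℕ)), ⟨(v : ℕ) % 2 ^ M, Nat.mod_lt _ (by positivity)⟩)
  left_inv p := by
    obtain ⟨b, v, hv⟩ := p
    unfold joinVal
    cases b
    · simp [Nat.mod_eq_of_lt hv, hv]
    · simp [Nat.mod_eq_of_lt hv]
  right_inv v := by
    obtain ⟨v, hv⟩ := v
    unfold joinVal
    rw [pow_succ] at hv
    apply Fin.ext
    simp only [decide_eq_true_eq]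
    split_ifs with h
    · have h1 : v = 2 ^ M + (v - 2 ^ M) := by omega
      have h2 : v % 2 ^ M = v - 2 ^ M := by
        conv_lhs => rw [h1]
        rw [Nat.add_mod_left, Nat.mod_eq_of_lt (by omega)]
      rw [h2]
      omega
    · rw [Nat.mod_eq_of_lt (by omega)]
      omega

def EE (n M : ℕ) : ((Fin n → Bool) × (Fin n → Fin (2 ^ M))) ≃ (Fin n → Fin (2 ^ (M + 1))) where
  toFun p := fun y => cEq M (p.1 y, p.2 y)
  invFun ω := (fun y => ((cEq M).symm (ω y)).1, fun y => ((cEq M).symm (ω y)).2)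
  left_inv p := by simp
  right_inv ω := by simp

theorem lab_EE (n M : ℕ) (b : Fin n → Bool) (ω : Fin n → Fin (2 ^ M)) :
    lab (EE n M (b, ω)) = fun y => joinVal M (b y) (lab ω y) := rfl

theorem join_top {M v : ℕ} (b : Bool) (hv : v < 2 ^ M) : joinVal M b v / 2 ^ M % 2 = 1 ↔ b = true := by
  unfold joinVal
  have h0 : v / 2 ^ M = 0 := Nat.div_eq_of_lt hv
  cases b
  · simp [h0]
  · simp [Nat.add_div_left, h0]

theorem join_top' {M v : ℕ} (b : Bool) (hv : v < 2 ^ M) : joinVal M b v / 2 ^ M % 2 = 0 ↔ b = false := by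
  unfold joinVal
  have h0 : v / 2 ^ M = 0 := Nat.div_eq_of_lt hv
  cases b
  · simp [h0]
  · simp [Nat.add_div_left, h0]

theorem join_bit {M e v : ℕ} (b : Bool) (he : e < M) :
    joinVal M b v / 2 ^ e % 2 = v / 2 ^ e % 2 := by
  obtain ⟨k, rfl⟩ : ∃ k, M = e + 1 + k := ⟨M - (e + 1), by omega⟩
  unfold joinVal
  cases b
  · simp
  · have h1 : (2 : ℕ) ^ (e + 1 + k) = 2 ^ e * (2 * 2 ^ k) := by ring
    simp only [if_true]
    rw [h1, Nat.mul_add_div (by positivity), Nat.mul_add_mod]

theorem join_div {M e v w : ℕ} (b c : Bool) (he : e < M) (hv : v < 2 ^ M) (hw : w < 2 ^ M) :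
    joinVal M b v / 2 ^ (e + 1) = joinVal M c w / 2 ^ (e + 1) ↔
      b = c ∧ v / 2 ^ (e + 1) = w / 2 ^ (e + 1) := by
  obtain ⟨k, rfl⟩ : ∃ k, M = e + 1 + k := ⟨M - (e + 1), by omega⟩
  rw [pow_add] at hv hw
  have h1 : v / 2 ^ (e + 1) < 2 ^ k := Nat.div_lt_of_lt_mul hv
  have h2 : w / 2 ^ (e + 1) < 2 ^ k := Nat.div_lt_of_lt_mul hw
  unfold joinVal
  have hp : 0 < 2 ^ (e + 1) := by positivity
  cases b <;> cases c <;> simp only [if_true, Bool.false_eq_true, if_false, zero_add, pow_add _ (e + 1) k,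
    Nat.mul_add_div hp, true_and, reduceCtorEq, false_and, iff_false]
  all_goals
    generalize v / 2 ^ (e + 1) = s at *
    generalize w / 2 ^ (e + 1) = t at *
    generalize 2 ^ k = K at *
    omega

theorem zc_split {n M : ℕ} (b : Fin n → Bool) (ω : Fin n → ℕ) (hω : ∀ y, ω y < 2 ^ M)
    (h : List (Fin n)) (x : Fin n) :
    zc (M + 1) (fun y => joinVal M (b y) (ω y)) h x =
      (if b x = true ∧ (∃ y, h.head? = some y ∧ b y = false) then 1 else 0) +
        zc M ω (h.filter fun z => b z = b x) x := by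
  classical
  unfold zc
  rw [Finset.card_filter, Finset.card_filter, Finset.sum_range_succ, add_comm]
  congr 1
  · have hfind : h.find? (fun z => decide (joinVal M (b z) (ω z) / 2 ^ (M + 1) =
        joinVal M (b x) (ω x) / 2 ^ (M + 1))) = h.head? := by
      have h0 : ∀ z, joinVal M (b z) (ω z) / 2 ^ (M + 1) = 0 := fun z =>
        Nat.div_eq_of_lt (joinVal_lt _ (hω z))
      cases h with
      | nil => rfl
      | cons a l => rw [List.find?_cons_of_pos (by simp [h0])]; rfl
    refine if_congr ?_ rfl rfl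
    unfold Chg
    rw [hfind, join_top _ (hω x)]
    refine and_congr_right fun _ => exists_congr fun y => and_congr_right fun _ => ?_
    exact join_top' _ (hω y)
  · refine Finset.sum_congr rfl fun e he => ?_
    rw [Finset.mem_range] at he
    refine if_congr ?_ rfl rfl
    have hfind : h.find? (fun z => decide (joinVal M (b z) (ω z) / 2 ^ (e + 1) =
        joinVal M (b x) (ω x) / 2 ^ (e + 1))) =
        (h.filter fun z => b z = b x).find? (fun z => decide (ω z / 2 ^ (e + 1) = ω x / 2 ^ (e + 1))) := by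
      rw [List.find?_filter]
      congr 1
      funext z
      rw [Bool.eq_iff_iff]
      simp only [decide_eq_true_eq]
      exact join_div _ _ he (hω z) (hω x)
    unfold Chg
    rw [hfind, join_bit _ he]
    refine and_congr_right fun _ => exists_congr fun y => and_congr_right fun _ => ?_
    rw [join_bit _ he]

theorem holds_REC : S_REC := by
  intro n M h x
  rw [← (EE n M).sum_comp, Fintype.sum_prod_type]
  refine Finset.sum_congr rfl fun b _ => ?_
  rw [Finset.mul_sum]
  refine Finset.sum_congr rfl fun ω _ => ?_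
  rw [lab_EE, zc_split b (lab ω) (fun y => (ω y).2), pow_add]

end Pool.Agent.N724.TX
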