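import Pool.Agent.N724.TX.Stm

set_option autoImplicit false

/-!
# The recursion step (helper91, for project TX of helper724)
-/

namespace Pool.Agent.N724.TX

open Pool.Agent.H581R2.Splay Pool.Agent.TH49.Spl Pool.Agent.Y395.SP Pool.Agent.N724.TW

namespace STEP

variable {n : ℕ}

/-- the number of the keys with the bit of `x` -/
def X (D : Finset (Fin n)) (x : Fin n) (b : Fin n → Bool) : ℕ := (D.filter fun z => b z = b x).card

noncomputable def F (D : Finset (Fin n)) (x : Fin n) (b : Fin n → Bool) : ℝ :=
  ((X D x b : ℝ) + 1) ^ (-(1 / 6) : ℝ)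

theorem X_update {D : Finset (Fin n)} {x y : Fin n} (hxy : x ≠ y) (hy : y ∉ D) (b : Fin n → Bool) (v : Bool) :
    X D x (Function.update b y v) = X D x b := by
  unfold X
  congr 1
  refine Finset.filter_congr fun z hz => ?_
  have hzy : z ≠ y := fun h => hy (h ▸ hz)
  rw [Function.update_of_ne hzy, Function.update_of_ne hxy]

theorem X_compl (D : Finset (Fin n)) (x : Fin n) (b : Fin n → Bool) :
    X D x (fun z => !b z) = X D x b := by
  unfold X
  congr 1
  refine Finset.filter_congr fun z _ => ?_
  simp

/-- flip the bit of `y` -/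
def flip (y : Fin n) (b : Fin n → Bool) : Fin n → Bool := Function.update b y (!b y)

theorem flip_inv (y : Fin n) : Function.Involutive (flip y : (Fin n → Bool) → (Fin n → Bool)) := by
  intro b
  funext z
  unfold flip
  by_cases h : z = y
  · subst h
    simp
  · rw [Function.update_of_ne h, Function.update_of_ne h]

theorem compl_inv : Function.Involutive (fun (b : Fin n → Bool) (z : Fin n) => !b z) := by
  intro b
  funext z
  simp

/-- the change of variables -/
def twist (x : Fin n) (b : Fin n → Bool) : Fin n → Bool :=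
  fun z => if z = x then b x else (b z == b x)

theorem twist_inv (x : Fin n) : Function.Involutive (twist x : (Fin n → Bool) → (Fin n → Bool)) := by
  intro b
  funext z
  unfold twist
  by_cases h : z = x
  · subst h
    simp
  · simp only [h, if_false, if_true]
    cases b z <;> cases b x <;> rfl

theorem X_twist {D : Finset (Fin n)} {x : Fin n} (hx : x ∉ D) (b : Fin n → Bool) :
    X D x b = (D.filter fun z => twist x b z = true).card := by
  unfold X
  congr 1
  refine Finset.filter_congr fun z hz => ?_
  have hzx : z ≠ x := fun h => hx (h ▸ hz)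
  unfold twist
  rw [if_neg hzx]
  simp

theorem F_nn (D : Finset (Fin n)) (x : Fin n) (b : Fin n → Bool) : 0 ≤ F D x b := by
  unfold F
  positivity

/-- the four classes -/
theorem quarter {D : Finset (Fin n)} {x y : Fin n} (hxy : x ≠ y) (hy : y ∉ D) :
    ∑ b : Fin n → Bool, (if b x = true ∧ b y = false then F D x b else 0) =
      1 / 4 * ∑ b : Fin n → Bool, F D x b := by
  have hfl : ∀ b, F D x (flip y b) = F D x b := fun b => by
    unfold F flip
    rw [X_update hxy hy]
  have hco : ∀ b : Fin n → Bool, F D x (fun z => !b z) = F D x b := fun b => by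
    unfold F
    rw [X_compl]
  have e2 : ∑ b : Fin n → Bool, (if b x = true ∧ b y = true then F D x b else 0) =
      ∑ b : Fin n → Bool, (if b x = true ∧ b y = false then F D x b else 0) := by
    rw [← Equiv.sum_comp (flip_inv y).toPerm]
    refine Finset.sum_congr rfl fun b _ => ?_
    show (if flip y b x = true ∧ flip y b y = true then F D x (flip y b) else 0) = _
    rw [hfl]
    unfold flip
    rw [Function.update_of_ne hxy, Function.update_self]
    simp
  have e3 : ∑ b : Fin n → Bool, (if b x = false ∧ b y = true then F D x b else 0) =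
      ∑ b : Fin n → Bool, (if b x = true ∧ b y = false then F D x b else 0) := by
    rw [← Equiv.sum_comp (compl_inv (n := n)).toPerm]
    refine Finset.sum_congr rfl fun b _ => ?_
    show (if (!b x) = false ∧ (!b y) = true then F D x (fun z => !b z) else 0) = _
    rw [hco]
    simp
  have e4 : ∑ b : Fin n → Bool, (if b x = false ∧ b y = false then F D x b else 0) =
      ∑ b : Fin n → Bool, (if b x = true ∧ b y = true then F D x b else 0) := by
    rw [← Equiv.sum_comp (compl_inv (n := n)).toPerm]
    refine Finset.sum_congr rfl fun b _ => ?_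
    show (if (!b x) = false ∧ (!b y) = false then F D x (fun z => !b z) else 0) = _
    rw [hco]
    simp
  have e5 : ∑ b : Fin n → Bool, F D x b =
      ∑ b : Fin n → Bool, (if b x = true ∧ b y = false then F D x b else 0) +
      ∑ b : Fin n → Bool, (if b x = true ∧ b y = true then F D x b else 0) +
      ∑ b : Fin n → Bool, (if b x = false ∧ b y = true then F D x b else 0) +
      ∑ b : Fin n → Bool, (if b x = false ∧ b y = false then F D x b else 0) := by
    rw [← Finset.sum_add_distrib, ← Finset.sum_add_distrib, ← Finset.sum_add_distrib]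
    refine Finset.sum_congr rfl fun b _ => ?_
    cases b x <;> cases b y <;> simp
  rw [e4, e3, e2] at e5
  rw [e5]
  ring

/-- Jensen -/
theorem jensen (hB : S_BIN) {D : Finset (Fin n)} {x : Fin n} (hx : x ∉ D) :
    ∑ b : Fin n → Bool, F D x b ≤ 2 ^ n * (2 / ((D.card : ℝ) + 1)) ^ ((1 / 6) : ℝ) := by
  have hcard : ((Finset.univ : Finset (Fin n → Bool)).card : ℝ) = 2 ^ n := by
    rw [Finset.card_univ]
    simp
  have h2n : (0 : ℝ) < 2 ^ n := by positivity
  have hF6 : ∀ b, F D x b ^ (6 : ℝ) = 1 / ((X D x b : ℝ) + 1) := by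
    intro b
    unfold F
    rw [← Real.rpow_mul (by positivity)]
    have : (-(1 / 6) * 6 : ℝ) = -1 := by norm_num
    rw [this, Real.rpow_neg_one, one_div]
  have h1 := Real.arith_mean_le_rpow_mean (Finset.univ : Finset (Fin n → Bool)) (fun _ => 1 / 2 ^ n)
    (fun b => F D x b) (fun _ _ => by positivity)
    (by rw [Finset.sum_const, nsmul_eq_mul, hcard]; field_simp) (fun b _ => F_nn D x b)
    (p := 6) (by norm_num)
  have h2 : ∑ b : Fin n → Bool, 1 / ((X D x b : ℝ) + 1) ≤ 2 ^ n * (2 / ((D.card : ℝ) + 1)) := by
    have h3 := hB n D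
    rw [← Equiv.sum_comp (twist_inv x).toPerm] at h3
    refine le_trans (le_of_eq ?_) h3
    refine Finset.sum_congr rfl fun b _ => ?_
    rw [X_twist hx]
    rfl
  simp only [hF6] at h1
  rw [← Finset.mul_sum, ← Finset.mul_sum] at h1
  have h4 : (1 / 2 ^ n * ∑ b : Fin n → Bool, 1 / ((X D x b : ℝ) + 1)) ≤ 2 / ((D.card : ℝ) + 1) := by
    rw [one_div, inv_mul_le_iff₀ h2n]
    exact h2
  have h5 : 0 ≤ 1 / 2 ^ n * ∑ b : Fin n → Bool, 1 / ((X D x b : ℝ) + 1) := by positivity
  have h6 := h1.trans (Real.rpow_le_rpow h5 h4 (by norm_num : (0 : ℝ) ≤ 1 / 6))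
  rw [one_div, inv_mul_le_iff₀ h2n] at h6
  exact h6

end STEP

open STEP in
theorem holds_STEP : S_BIN → S_STEP := by
  intro hB n x y D hx hy
  have hxy : x ≠ y := fun h => hx (h ▸ hy)
  have hy' : y ∉ D.erase y := Finset.notMem_erase y D
  have hx' : x ∉ D.erase y := fun h => hx (Finset.mem_of_mem_erase h)
  have hJ := jensen hB hx'
  have hcard : (((D.erase y).card : ℕ) : ℝ) + 1 = (D.card : ℝ) := by
    have := Finset.card_erase_add_one hy
    exact_mod_cast this
  rw [hcard] at hJ
  have hmono : ∀ b : Fin n → Bool, (((D.filter fun z => b z = b x).card : ℝ) + 1) ^ (-(1 / 6) : ℝ) ≤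
      F (D.erase y) x b := by
    intro b
    unfold F X
    refine Real.rpow_le_rpow_of_nonpos (by positivity) ?_ (by norm_num)
    have : ((D.erase y).filter fun z => b z = b x).card ≤ (D.filter fun z => b z = b x).card :=
      Finset.card_le_card (Finset.filter_subset_filter _ (Finset.erase_subset _ _))
    have h : (((D.erase y).filter fun z => b z = b x).card : ℝ) ≤ ((D.filter fun z => b z = b x).card : ℝ) := by
      exact_mod_cast this
    linarith
  calc ∑ b : Fin n → Bool, ((1 / 2 : ℝ) ^ (if b x = true ∧ b y = false then 1 else 0)) *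
        (2 * (((D.filter fun z => b z = b x).card : ℝ) + 1) ^ (-(1 / 6) : ℝ))
      ≤ ∑ b : Fin n → Bool, (2 * F (D.erase y) x b -
          (if b x = true ∧ b y = false then F (D.erase y) x b else 0)) := by
        refine Finset.sum_le_sum fun b _ => ?_
        have h1 := hmono b
        have h2 := F_nn (D.erase y) x b
        by_cases h : b x = true ∧ b y = false
        · rw [if_pos h, if_pos h, pow_one]
          linarith
        · rw [if_neg h, if_neg h, pow_zero]
          linarith
    _ = 7 / 4 * ∑ b : Fin n → Bool, F (D.erase y) x b := by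
        rw [Finset.sum_sub_distrib, quarter hxy hy', ← Finset.mul_sum]
        ring
    _ ≤ 7 / 4 * (2 ^ n * (2 / (D.card : ℝ)) ^ ((1 / 6) : ℝ)) :=
        mul_le_mul_of_nonneg_left hJ (by norm_num)
    _ = 2 ^ n * (7 / 8 * (2 * (2 / (D.card : ℝ)) ^ ((1 / 6) : ℝ))) := by ring

end Pool.Agent.N724.TX
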