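import Pool.Agent.N724.TX.Stm

set_option autoImplicit false

/-!
# Project TX: few changes are unlikely (helper738)
-/

namespace Pool.Agent.N724.TX

open Pool.Agent.H581R2.Splay Pool.Agent.TH49.Spl Pool.Agent.Y395.SP Pool.Agent.N724.TW

theorem tail_wsF_lt {n : ℕ} (h : List (Fin n)) (x : Fin n) : wsF h x + 1 ≤ n := by
  unfold wsF
  have h1 : x ∉ (h.takeWhile fun y => decide (y ≠ x)).toFinset := by
    intro hx
    rw [List.mem_toFinset] at hx
    have h2 := List.mem_takeWhile_imp hx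
    simp at h2
  have h2 := Finset.card_lt_univ_of_notMem h1
  rw [Fintype.card_fin] at h2
  exact h2

theorem holds_TAIL : S_EXP → S_TAIL := by
  intro hE n
  rcases Nat.eq_zero_or_pos n with hn | hn
  · subst hn
    exact ⟨0, fun M _ h x => x.elim0⟩
  have hn1 : (0 : ℝ) < n := by exact_mod_cast hn
  have ha : (0 : ℝ) < (n : ℝ) ^ (-(1 / 6) : ℝ) := Real.rpow_pos_of_pos hn1 _
  obtain ⟨M₀, hM₀⟩ := exists_pow_lt_of_lt_one ha (by norm_num : (7 / 8 : ℝ) < 1)
  refine ⟨M₀, fun M hM h x => ?_⟩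
  have h78 : (7 / 8 : ℝ) ^ M ≤ (n : ℝ) ^ (-(1 / 6) : ℝ) :=
    (pow_le_pow_of_le_one (by norm_num) (by norm_num) hM).trans hM₀.le
  set t : ℝ := (wsF h x : ℝ) + 1 with ht
  have ht1 : 1 ≤ t := by
    have : (0 : ℝ) ≤ (wsF h x : ℝ) := Nat.cast_nonneg _
    linarith
  have ht0 : 0 < t := by linarith
  have htn : t ≤ n := by
    have h1 : ((wsF h x + 1 : ℕ) : ℝ) ≤ n := by exact_mod_cast tail_wsF_lt h x
    push_cast at h1
    exact h1
  have hnt : (n : ℝ) ^ (-(1 / 6) : ℝ) ≤ t ^ (-(1 / 6) : ℝ) :=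
    Real.rpow_le_rpow_of_nonpos ht0 htn (by norm_num)
  set u : ℝ := t ^ (-(1 / 12) : ℝ) with hu
  have hu0 : 0 < u := Real.rpow_pos_of_pos ht0 _
  have huu : t ^ (-(1 / 6) : ℝ) = u * u := by
    rw [hu, ← Real.rpow_add ht0]
    norm_num
  set W : ℝ := ((2 : ℝ) ^ M) ^ n with hW
  have hW0 : 0 < W := by positivity
  set F := ((Finset.univ : Finset (Fin n → Fin (2 ^ M))).filter fun ω =>
      (zc M (lab ω) h x : ℝ) < 1 / 12 * Real.logb 2 t) with hF
  have h1 : ∀ ω ∈ F, u ≤ (1 / 2 : ℝ) ^ zc M (lab ω) h x := by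
    intro ω hω
    have h2 : (zc M (lab ω) h x : ℝ) < 1 / 12 * Real.logb 2 t := (Finset.mem_filter.1 hω).2
    have h3 : (1 / 2 : ℝ) ^ zc M (lab ω) h x = (2 : ℝ) ^ (-(zc M (lab ω) h x : ℝ)) := by
      rw [Real.rpow_neg (by norm_num), Real.rpow_natCast, one_div, inv_pow]
    have h4 : u = (2 : ℝ) ^ (-(1 / 12 * Real.logb 2 t)) := by
      have h5 : t = (2 : ℝ) ^ (Real.logb 2 t) :=
        (Real.rpow_logb (by norm_num) (by norm_num) ht0).symm
      rw [hu]
      conv_lhs => rw [h5]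
      rw [← Real.rpow_mul (by norm_num)]
      congr 1
      ring
    rw [h3, h4]
    exact Real.rpow_le_rpow_of_exponent_le (by norm_num) (by linarith)
  have h2 : (F.card : ℝ) * u ≤ ∑ ω : Fin n → Fin (2 ^ M), (1 / 2 : ℝ) ^ zc M (lab ω) h x := by
    have h3 := Finset.card_nsmul_le_sum F (fun ω => (1 / 2 : ℝ) ^ zc M (lab ω) h x) u h1
    rw [nsmul_eq_mul] at h3
    refine h3.trans ?_
    exact Finset.sum_le_univ_sum_of_nonneg fun ω => by positivity
  have h3 := h2.trans (hE n M h x)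
  have h4 : (F.card : ℝ) * u ≤ (3 * u * W) * u := by
    refine h3.trans ?_
    have h5 : 2 * t ^ (-(1 / 6) : ℝ) + (7 / 8 : ℝ) ^ M ≤ 3 * (u * u) := by
      rw [← huu]
      linarith
    calc (2 * t ^ (-(1 / 6) : ℝ) + (7 / 8 : ℝ) ^ M) * W ≤ 3 * (u * u) * W :=
          mul_le_mul_of_nonneg_right h5 hW0.le
      _ = _ := by ring
  exact le_of_mul_le_mul_right h4 hu0

end Pool.Agent.N724.TX
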