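import Pool.Agent.N724.TX.Stm
import Pool.Agent.N724.TW.T_VAL

set_option autoImplicit false

/-!
# Project TX, part VALR: the interleave bound for the dyadic intervals of labels (helper199)
-/

namespace Pool.Agent.N724.TX

open Pool.Agent.H581R2.Splay Pool.Agent.TH49.Spl Pool.Agent.Y395.SP Pool.Agent.N724.TW

namespace VALRaux

variable {n : ℕ} (ω : Fin n → ℕ)

theorem rk_mono {v w : ℕ} (h : v ≤ w) : rk ω v ≤ rk ω w := by
  unfold rk
  refine Finset.card_le_card fun y hy => ?_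
  rw [Finset.mem_filter] at hy ⊢
  exact ⟨hy.1, hy.2.trans_le h⟩

theorem rk_lt_iff (x : Fin n) (v : ℕ) : rk ω (ω x) < rk ω v ↔ ω x < v := by
  constructor
  · intro h
    by_contra hc
    exact absurd (rk_mono ω (not_lt.1 hc)) (not_le.2 h)
  · intro h
    unfold rk
    refine Finset.card_lt_card ⟨fun y hy => ?_, fun hs => ?_⟩
    · rw [Finset.mem_filter] at hy ⊢
      exact ⟨hy.1, hy.2.trans h⟩
    · have h1 : x ∈ Finset.univ.filter fun y => ω y < v :=
        Finset.mem_filter.2 ⟨Finset.mem_univ _, h⟩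
      have h2 := hs h1
      rw [Finset.mem_filter] at h2
      exact lt_irrefl _ h2.2

theorem le_rk_iff (x : Fin n) (v : ℕ) : rk ω v ≤ rk ω (ω x) ↔ v ≤ ω x := by
  rw [← not_lt, rk_lt_iff, not_lt]

variable {ω} {σ : Equiv.Perm (Fin n)}

theorem cnt_rel (hσ : ∀ x, (σ x : ℕ) = rk ω (ω x)) (l m r : ℕ) (b : Bool) (X : List (Fin n)) :
    cnt (rk ω l) (rk ω m) (rk ω r) b (rel σ X) = cnt l m r b (X.map ω) := by
  induction X generalizing b with
  | nil => rfl
  | cons x X ih =>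
    have e1 : rel σ (x :: X) = (σ x : ℕ) :: rel σ X := rfl
    rw [e1, List.map_cons]
    simp only [cnt]
    rw [hσ x]
    simp only [rk_lt_iff, le_rk_iff, ih]

/-- the scheme of the ranks -/
def RS (ω : Fin n → ℕ) : ℕ → ℕ → AS
  | 0, _ => AS.leaf
  | D + 1, l => AS.node (rk ω (l + 2 ^ D)) false false (RS ω D l) (RS ω D (l + 2 ^ D))

theorem cred_RS (D l : ℕ) : cred (RS ω D l) = 0 := by
  induction D generalizing l with
  | zero => rfl
  | succ D ih => simp [RS, cred, ih]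

theorem ok_RS (D l : ℕ) : ok (RS ω D l) (rk ω l) (rk ω (l + 2 ^ D)) := by
  induction D generalizing l with
  | zero => trivial
  | succ D ih =>
    refine ⟨rk_mono ω (Nat.le_add_right _ _), ?_, ih l, ?_⟩
    · rw [VALaux.two_pow_eq]
      exact rk_mono ω (Nat.le_add_right _ _)
    · rw [VALaux.two_pow_eq]
      exact ih (l + 2 ^ D)

theorem inv_RS (T : Tr) (D l r r' : ℕ) : inv T (RS ω D l) r r' := by
  induction D generalizing l r r' with
  | zero => trivial
  | succ D ih => exact ⟨by simp, ih _ _ _, ih _ _ _⟩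

theorem val_RS (hσ : ∀ x, (σ x : ℕ) = rk ω (ω x)) (X : List (Fin n)) (D l : ℕ) :
    val (RS ω D l) (rk ω l) (rk ω (l + 2 ^ D)) (rel σ X) =
      val (VALaux.FS D l) l (l + 2 ^ D) (X.map ω) := by
  induction D generalizing l with
  | zero => rfl
  | succ D ih =>
    have h1 : val (RS ω (D + 1) l) (rk ω l) (rk ω (l + 2 ^ (D + 1))) (rel σ X) =
        cnt (rk ω l) (rk ω (l + 2 ^ D)) (rk ω (l + 2 ^ (D + 1))) false (rel σ X) +
          val (RS ω D l) (rk ω l) (rk ω (l + 2 ^ D)) (rel σ X) +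
          val (RS ω D (l + 2 ^ D)) (rk ω (l + 2 ^ D)) (rk ω (l + 2 ^ (D + 1))) (rel σ X) := rfl
    have h2 : val (VALaux.FS (D + 1) l) l (l + 2 ^ (D + 1)) (X.map ω) =
        cnt l (l + 2 ^ D) (l + 2 ^ (D + 1)) false (X.map ω) +
          val (VALaux.FS D l) l (l + 2 ^ D) (X.map ω) +
          val (VALaux.FS D (l + 2 ^ D)) (l + 2 ^ D) (l + 2 ^ (D + 1)) (X.map ω) := rfl
    have h3 := ih (l + 2 ^ D)
    rw [h1, h2, cnt_rel hσ, ih l, VALaux.two_pow_eq, h3]

end VALRaux

/-- VALR -/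
theorem holds_VALR : S_VALR := by
  intro n M ω σ _ _ hσ T X c hT hE
  have hb : IsBST T := by
    unfold IsBST
    rw [hT]
    exact List.pairwise_lt_range
  have hY : ∀ x ∈ rel σ X, x ∈ keys T := by
    intro x hx
    rw [hT, List.mem_range]
    unfold rel at hx
    rw [List.mem_map] at hx
    obtain ⟨y, -, rfl⟩ := hx
    exact (σ y).2
  have h := exec_val hE hb hY (VALRaux.RS ω M 0) (rk ω 0) (rk ω (0 + 2 ^ M)) (VALRaux.ok_RS M 0)
    (VALRaux.inv_RS T M 0 _ _)
  rw [VALRaux.cred_RS, VALRaux.val_RS hσ, VALaux.val_FS] at h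
  unfold alt
  simpa only [zero_add, add_zero] using h

end Pool.Agent.N724.TX
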